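import Pool.Agent.H44.DU.Storeys
import Pool.Agent.H1.DU.IN
import Pool.Agent.H12.DU.DI
import Pool.Agent.H12.DU.DV
import Pool.Agent.H14.DU.HL1
import Pool.Agent.H14.DU.KD
import Pool.Agent.H19.DU.ABL
import Pool.Agent.H19.DU.CMP
import Pool.Agent.H19.DU.CN
import Pool.Agent.H19.DU.CO
import Pool.Agent.H19.DU.CV
import Pool.Agent.H19.DU.HL3
import Pool.Agent.H19.DU.OP
import Pool.Agent.H19.DU.SG
import Pool.Agent.H21.DU.P2
import Pool.Agent.H3.DU.BN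
import Pool.Agent.H3.DU.HL2
import Pool.Agent.H33.DU.GA
import Pool.Agent.H33.DU.SL
import Pool.Agent.H33.DU.X2
import Pool.Agent.H47.DU.X4
import Pool.Agent.H50.DU.L5
import Pool.Agent.H51.DU.AE
import Pool.Agent.H51.DU.FD
import Pool.Agent.H54.DU.UAL
import Pool.Agent.H56.DU.CR
import Pool.Agent.H56.DU.L1
import Pool.Agent.H58.DU.BD
import Pool.Agent.H59.DU.LH
import Pool.Agent.H59.DU.SC
import Pool.Agent.H59.DU.X1
import Pool.Agent.H60.DU.LU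
import Pool.Agent.H60.DU.MSL
import Pool.Agent.H60.DU.TL
import Pool.Agent.H60.DU.TR
import Pool.Agent.H66.DU.QB
import Pool.Agent.H68.DU.IO
import Pool.Agent.H68.DU.ST
import Pool.Agent.H69.DU.K1
import Pool.Agent.H69.DU.K2
import Pool.Agent.H69.DU.X5
import Pool.Agent.H70.DU.GE
import Pool.Agent.H70.DU.INF
import Pool.Agent.H74.DU.BS
import Pool.Agent.H74.DU.EB
import Pool.Agent.H74.DU.L4
import Pool.Agent.H74.DU.L6
import Pool.Agent.H77.DU.CPL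
import Pool.Agent.H85.DU.CA
import Pool.Agent.H86.DU.L3
import Pool.Agent.H86.DU.X3
import Pool.Agent.H91.DU.EX
import Pool.Agent.H94.DU.HT
import Pool.Agent.H94.DU.NE
import Pool.Agent.H94.DU.PT
import Pool.Agent.H94.DU.RML
import Pool.Agent.H94.DU.RV

/-!
# The general theorem: all modules together
-/

set_option autoImplicit false

namespace Pool.Agent.H44.DU.All

open Pool.Agent.H44.DU MeasureTheory

theorem r_CO : T_CO := Pool.Agent.H19.DU.CO.pf_CO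

theorem r_LH : T_LH := Pool.Agent.H59.DU.LH.pf_LH

theorem r_EX : T_EX := Pool.Agent.H91.DU.EX.pf_EX r_LH

theorem r_NE : T_NE := Pool.Agent.H94.DU.NE.pf_NE r_EX

theorem r_TR : T_TR := Pool.Agent.H60.DU.pf_TR

theorem r_DV : T_DV := Pool.Agent.H12.DU.DV.pf_DV

theorem r_FD : T_FD := Pool.Agent.H51.DU.pf_FD

theorem r_K1 : T_K1 := Pool.Agent.H69.DU.pf_K1 r_TR r_LH r_DV r_FD

theorem r_RV : T_RV := Pool.Agent.H94.DU.RV.pf_RV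

theorem r_K2 : T_K2 := Pool.Agent.H69.DU.pf_K2 r_K1 r_RV

theorem r_IN : T_IN := Pool.Agent.H1.DU.IN.pf_IN r_NE r_K2

theorem r_PT : T_PT := Pool.Agent.H94.DU.PT.pf_PT

theorem r_CR : T_CR := Pool.Agent.H56.DU.pf_CR r_PT

theorem r_HT : T_HT := Pool.Agent.H94.DU.HT.pf_HT r_PT r_CR

theorem r_CV : T_CV := Pool.Agent.H19.DU.CV.pf_CV r_HT r_LH r_PT

theorem r_EB : T_EB := Pool.Agent.H74.DU.EB.pf_EB

theorem r_BS : T_BS := Pool.Agent.H74.DU.BS.pf_BS r_IN r_CV r_CR r_DV r_LH r_EB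

theorem r_BN : T_BN := Pool.Agent.H3.DU.BN.pf_BN r_BS r_K1

theorem r_DI : T_DI := Pool.Agent.H12.DU.DI.pf_DI r_BN r_K1 r_LH

theorem r_TL : T_TL := Pool.Agent.H60.DU.pf_TL r_DI r_EB r_IN r_K1 r_FD r_LH

theorem r_CPL : T_CPL := Pool.Agent.H77.DU.pf_CPL

theorem r_HL1 : T_HL1 := Pool.Agent.H14.DU.HL1.pf_HL1 r_PT r_CR

theorem r_KD : T_KD := Pool.Agent.H14.DU.KD.pf_KD r_HT r_LH r_PT

theorem r_HL2 : T_HL2 := Pool.Agent.H3.DU.HL2.pf_HL2 r_HL1 r_KD r_LH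

theorem r_HL3 : T_HL3 := Pool.Agent.H19.DU.HL3.pf_HL3 r_HL1 r_KD r_LH

theorem r_CMP : T_CMP := Pool.Agent.H19.DU.CMP.pf_CMP r_LH r_DV

theorem r_CN : T_CN := Pool.Agent.H19.DU.CN.pf_CN

theorem r_CA : T_CA := Pool.Agent.H85.DU.CA.pf_CA

theorem r_SG : T_SG := Pool.Agent.H19.DU.SG.pf_SG r_PT r_CR

theorem r_SL : T_SL := Pool.Agent.H33.DU.SL.pf_SL

theorem r_GA : T_GA := Pool.Agent.H33.DU.GA.pf_GA r_SG r_SL

theorem r_ABL : T_ABL := Pool.Agent.H19.DU.ABL.pf_ABL r_HL1 r_HL2 r_HL3 r_CMP r_CN r_CA r_GA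

theorem r_QB : T_QB := Pool.Agent.H66.DU.pf_QB r_HT r_GA r_PT

theorem r_BD : T_BD := Pool.Agent.H58.DU.BD.pf_BD

theorem r_X1 : T_X1 := Pool.Agent.H59.DU.X1.pf_X1 r_BD

theorem r_OP : T_OP := Pool.Agent.H19.DU.OP.pf_OP

theorem r_X2 : T_X2 := Pool.Agent.H33.DU.X2.pf_X2 r_X1 r_OP

theorem r_X3 : T_X3 := Pool.Agent.H86.DU.X3.pf_X3

theorem r_X4 : T_X4 := Pool.Agent.H47.DU.pf_X4 r_LH r_CR r_PT r_DV

theorem r_X5 : T_X5 := Pool.Agent.H69.DU.pf_X5 r_X2 r_X3 r_X4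

theorem r_L1 : T_L1 := Pool.Agent.H56.DU.pf_L1 r_LH

theorem r_L3 : T_L3 := Pool.Agent.H86.DU.L3.pf_L3 r_L1

theorem r_P2 : T_P2 := Pool.Agent.H21.DU.P2.pf_P2 r_HT r_LH r_DV r_FD r_PT

theorem r_L4 : T_L4 := Pool.Agent.H74.DU.pf_L4 r_P2 r_L3

theorem r_L5 : T_L5 := Pool.Agent.H50.DU.pf_L5 r_L3

theorem r_L6 : T_L6 := Pool.Agent.H74.DU.L6.pf_L6 r_L1 r_P2

theorem r_LU : T_LU := Pool.Agent.H60.DU.LU.pf_LU r_L3 r_L4 r_L5 r_L6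

theorem r_UAL : T_UAL := Pool.Agent.H54.DU.pf_UAL r_CO r_TL r_CPL r_ABL r_QB r_GA r_X5 r_LU

theorem r_RML : T_RML := Pool.Agent.H94.DU.RML.pf_RML

theorem r_IO : T_IO := Pool.Agent.H44.DU.pf_IO

theorem r_INF : T_INF := Pool.Agent.H44.DU.pf_INF

theorem r_MSL : T_MSL := Pool.Agent.H60.DU.MSL.pf_MSL r_IO r_INF

theorem r_ST : T_ST := Pool.Agent.H44.DU.pf_ST r_PT r_CR

theorem r_GE : T_GE := Pool.Agent.H44.DU.pf_GE r_ST

theorem r_SC : T_SC := Pool.Agent.H59.DU.SC.pf_SC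

theorem r_AE : T_AE := Pool.Agent.H51.DU.pf_AE


theorem thm {n : ℕ} (S : Surf n) (hc : S.Connected) (ha : ∃ s, S.a s ≠ 1) :
    (∀ (w : ℂ) (hw : w ≠ 0) (J : Set ℝ), IsOpen J → (S.turn w hw).HasHeights J →
      ∀ᵐ θ : ℝ, (∃ t ∈ J, ∃ l : ℝ, l ≠ 0 ∧
        w * Complex.exp (θ * Complex.I) = (l : ℂ) * ((t : ℂ) + Complex.I)) →
        S.MorseSmale (Complex.exp (θ * Complex.I))) ∧
    (∀ (w : ℂ) (hw : w ≠ 0), (S.turn w hw).HasHeights Set.univ →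
      ∀ᵐ θ : ℝ, S.MorseSmale (Complex.exp (θ * Complex.I))) ∧
    (∀ (up : ℤ → Prop) (lev : Fin n → ℤ), S.Storeys up lev →
      ∀ᵐ θ : ℝ, S.MorseSmale (Complex.exp (θ * Complex.I))) :=
  main3 r_UAL r_RML r_MSL r_GE r_SC r_AE r_CO S hc ha

end Pool.Agent.H44.DU.All
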