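import Pool.Agent.H44.DU.Defs

/-!
# The leaf coordinate and the words of a leaf: definitions and basic facts
-/

set_option autoImplicit false

namespace Pool.Agent.H44.DU

/-- The next side of the same triangle. -/
def nx {n : ℕ} (s : Side n) : Side n := (s.1, s.2 + 1)

/-- The coordinate of the leaf of direction `t + i` through `z`. -/
noncomputable def xi (t : ℝ) (z : ℂ) : ℝ := z.re - t * z.im

lemma xi_add (t : ℝ) (z w : ℂ) : xi t (z + w) = xi t z + xi t w := by
  simp [xi]; ring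

lemma xi_sub (t : ℝ) (z w : ℂ) : xi t (z - w) = xi t z - xi t w := by
  simp [xi]; ring

lemma xi_neg (t : ℝ) (z : ℂ) : xi t (-z) = -xi t z := by
  simp [xi]; ring

lemma xi_mul (t c : ℝ) (z : ℂ) : xi t ((c : ℂ) * z) = c * xi t z := by
  simp [xi]; ring

lemma xi_div (t c : ℝ) (z : ℂ) : xi t (z / (c : ℂ)) = xi t z / c := by
  rw [div_eq_mul_inv, mul_comm, ← Complex.ofReal_inv, xi_mul]; ring

lemma xi_dir (t : ℝ) : xi t ((t : ℂ) + Complex.I) = 0 := by
  simp [xi]

lemma xi_zero (t : ℝ) : xi t 0 = 0 := by simp [xi]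

section sides

variable {n : ℕ}

lemma nx_fst (s : Side n) : (nx s).1 = s.1 := rfl

lemma nx_nx_nx (s : Side n) : nx (nx (nx s)) = s := by
  obtain ⟨i, k⟩ := s
  simp only [nx]
  congr 1
  fin_cases k <;> rfl

lemma nx_ne (s : Side n) : nx s ≠ s := by
  obtain ⟨i, k⟩ := s
  simp only [nx, ne_eq, Prod.mk.injEq, true_and]
  fin_cases k <;> decide

lemma nx_nx_ne (s : Side n) : nx (nx s) ≠ s := by
  obtain ⟨i, k⟩ := s
  simp only [nx, ne_eq, Prod.mk.injEq, true_and]
  fin_cases k <;> decide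

lemma nx_nx_ne_nx (s : Side n) : nx (nx s) ≠ nx s := nx_ne (nx s)

lemma side_cases {r s : Side n} (h : r.1 = s.1) : r = s ∨ r = nx s ∨ r = nx (nx s) := by
  obtain ⟨i, k⟩ := s
  obtain ⟨j, l⟩ := r
  simp only at h
  subst h
  simp only [nx, Prod.mk.injEq, true_and]
  fin_cases k <;> fin_cases l <;> decide

end sides

namespace Surf

variable {n : ℕ} (S : Surf n)

/-- The vertex opposite to a side. -/
def O (s : Side n) : ℂ := S.v s.1 (s.2 + 2)

lemma P_nx (s : Side n) : S.P (nx s) = S.Q s := rfl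

lemma Q_nx (s : Side n) : S.Q (nx s) = S.O s := by
  obtain ⟨i, k⟩ := s
  simp only [Q, O, nx]
  congr 1
  fin_cases k <;> rfl

lemma O_nx (s : Side n) : S.O (nx s) = S.P s := by
  obtain ⟨i, k⟩ := s
  simp only [P, O, nx]
  congr 1
  fin_cases k <;> rfl

lemma P_nx_nx (s : Side n) : S.P (nx (nx s)) = S.O s := by rw [P_nx, Q_nx]

lemma Q_nx_nx (s : Side n) : S.Q (nx (nx s)) = S.P s := by rw [Q_nx, O_nx]

lemma O_nx_nx (s : Side n) : S.O (nx (nx s)) = S.Q s := by rw [O_nx, P_nx]

/-- Twice the area of the triangle of a side. -/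
def ar (s : Side n) : ℝ :=
  (S.Q s - S.P s).re * (S.O s - S.P s).im - (S.Q s - S.P s).im * (S.O s - S.P s).re

lemma ar_nx (s : Side n) : S.ar (nx s) = S.ar s := by
  simp only [ar, P_nx, Q_nx, O_nx, Complex.sub_re, Complex.sub_im]
  ring

lemma ar_pos (s : Side n) : 0 < S.ar s := by
  have h0 : 0 < S.ar (s.1, 0) := S.orient s.1
  rcases side_cases (r := s) (s := (s.1, 0)) rfl with h | h | h
  · rw [h]; exact h0
  · rw [h, ar_nx]; exact h0
  · rw [h, ar_nx, ar_nx]; exact h0

lemma P_ne_Q (s : Side n) : S.P s ≠ S.Q s := by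
  intro h
  have := S.ar_pos s
  simp [ar, h] at this

lemma Q_gl (s : Side n) : S.Q (S.gl s) = S.a s * S.P s + S.b s := (S.glue_fst s).symm

lemma P_gl (s : Side n) : S.P (S.gl s) = S.a s * S.Q s + S.b s := (S.glue_snd s).symm

lemma a_ne (s : Side n) : (S.a s : ℂ) ≠ 0 := by
  exact_mod_cast (S.a_pos s).ne'

lemma a_gl_mul (s : Side n) : S.a (S.gl s) * S.a s = 1 := by
  have h1 := S.glue_fst s
  have h2 := S.glue_snd s
  have h3 := S.glue_fst (S.gl s)
  have h4 := S.glue_snd (S.gl s)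
  rw [S.gl_gl] at h3 h4
  rw [← h2] at h3
  rw [← h1] at h4
  have h5 : ((S.a (S.gl s) : ℂ) * S.a s) * (S.v s.1 (s.2 + 1) - S.v s.1 s.2) =
      (S.v s.1 (s.2 + 1) - S.v s.1 s.2) := by
    linear_combination h3 - h4
  have h6 : S.v s.1 (s.2 + 1) - S.v s.1 s.2 ≠ 0 := by
    intro h
    exact S.P_ne_Q s (sub_eq_zero.mp h).symm
  have h7 : (S.a (S.gl s) : ℂ) * S.a s = 1 := by
    have := mul_right_cancel₀ h6 (h5.trans (one_mul _).symm)
    exact this
  exact_mod_cast h7

lemma a_gl (s : Side n) : S.a (S.gl s) = (S.a s)⁻¹ :=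
  eq_inv_of_mul_eq_one_left (S.a_gl_mul s)

lemma b_gl (s : Side n) : S.b (S.gl s) = -((S.a s : ℂ)⁻¹ * S.b s) := by
  have h1 := S.glue_fst s
  have h4 := S.glue_snd (S.gl s)
  rw [S.gl_gl, ← h1, S.a_gl] at h4
  have h := S.a_ne s
  push_cast at h4
  have h5 : S.b (S.gl s) = S.v s.1 s.2 - (S.a s : ℂ)⁻¹ * (S.a s * S.v s.1 s.2 + S.b s) := by
    linear_combination h4
  rw [h5, mul_add, ← mul_assoc, inv_mul_cancel₀ h]
  ring

/-- The coordinates of the leaves leaving the triangle through the side `r`. -/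
def InJ (t : ℝ) (r : Side n) (x : ℝ) : Prop := xi t (S.Q r) < x ∧ x < xi t (S.P r)

/-- The coordinates of the leaves entering the triangle through the side `s`. -/
def InI (t : ℝ) (s : Side n) (x : ℝ) : Prop := xi t (S.P s) < x ∧ x < xi t (S.Q s)

/-- The change of the coordinate in the gluing of `r`. -/
noncomputable def mv (t : ℝ) (r : Side n) (x : ℝ) : ℝ := S.a r * x + xi t (S.b r)

lemma xi_Q_gl (t : ℝ) (s : Side n) : xi t (S.Q (S.gl s)) = S.mv t s (xi t (S.P s)) := by
  rw [Q_gl, xi_add, xi_mul, mv]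

lemma xi_P_gl (t : ℝ) (s : Side n) : xi t (S.P (S.gl s)) = S.mv t s (xi t (S.Q s)) := by
  rw [P_gl, xi_add, xi_mul, mv]

lemma mv_lt_iff (t : ℝ) (r : Side n) {x y : ℝ} : S.mv t r x < S.mv t r y ↔ x < y := by
  simp only [mv, add_lt_add_iff_right]
  exact mul_lt_mul_iff_right₀ (S.a_pos r)

lemma mv_le_iff (t : ℝ) (r : Side n) {x y : ℝ} : S.mv t r x ≤ S.mv t r y ↔ x ≤ y := by
  simp only [mv, add_le_add_iff_right]
  exact mul_le_mul_iff_right₀ (S.a_pos r)

lemma mv_inj (t : ℝ) (r : Side n) {x y : ℝ} (h : S.mv t r x = S.mv t r y) : x = y := by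
  have h1 := (S.mv_le_iff t r).1 h.le
  have h2 := (S.mv_le_iff t r).1 h.ge
  exact le_antisymm h1 h2

lemma inI_gl_iff (t : ℝ) (r : Side n) (x : ℝ) :
    S.InI t (S.gl r) (S.mv t r x) ↔ S.InJ t r x := by
  rw [InI, InJ, xi_P_gl, xi_Q_gl, mv_lt_iff, mv_lt_iff]

lemma mv_gl (t : ℝ) (r : Side n) (x : ℝ) : S.mv t (S.gl r) (S.mv t r x) = x := by
  have h := (S.a_pos r).ne'
  have h1 : xi t (S.b (S.gl r)) = -((S.a r)⁻¹ * xi t (S.b r)) := by
    rw [b_gl, xi_neg, ← Complex.ofReal_inv, xi_mul]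
  simp only [mv, h1, S.a_gl]
  field_simp
  ring

lemma mv_gl' (t : ℝ) (r : Side n) (x : ℝ) : S.mv t r (S.mv t (S.gl r) x) = x := by
  have := S.mv_gl t (S.gl r) x
  rwa [S.gl_gl] at this

lemma inJ_gl_iff (t : ℝ) (s : Side n) (x : ℝ) :
    S.InJ t (S.gl s) (S.mv t s x) ↔ S.InI t s x := by
  rw [InI, InJ, xi_P_gl, xi_Q_gl, mv_lt_iff, mv_lt_iff]

/-- Two sides through which the same leaf leaves the same triangle are equal. -/
lemma exit_unique {t x : ℝ} {r r' : Side n} (h : r.1 = r'.1) (h1 : S.InJ t r x)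
    (h2 : S.InJ t r' x) : r = r' := by
  obtain ⟨a1, a2⟩ := h1
  obtain ⟨b1, b2⟩ := h2
  rcases side_cases h with h | h | h
  · exact h
  · exfalso
    rw [h] at a1 a2
    rw [P_nx] at a2
    rw [Q_nx] at a1
    linarith
  · exfalso
    rw [h] at a1 a2
    rw [P_nx_nx] at a2
    rw [Q_nx_nx] at a1
    linarith

/-- Two sides through which the same leaf enters the same triangle are equal. -/
lemma entry_unique {t x : ℝ} {r r' : Side n} (h : r.1 = r'.1) (h1 : S.InI t r x)
    (h2 : S.InI t r' x) : r = r' := by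
  obtain ⟨a1, a2⟩ := h1
  obtain ⟨b1, b2⟩ := h2
  rcases side_cases h with h | h | h
  · exact h
  · exfalso
    rw [h] at a1 a2
    rw [P_nx] at a1
    rw [Q_nx] at a2
    linarith
  · exfalso
    rw [h] at a1 a2
    rw [P_nx_nx] at a1
    rw [Q_nx_nx] at a2
    linarith

lemma exit_right {t x : ℝ} {s : Side n} (h : S.InI t s x) (hx : xi t (S.O s) < x) :
    S.InJ t (nx s) x := by
  rw [InJ, P_nx, Q_nx]; exact ⟨hx, h.2⟩

lemma exit_left {t x : ℝ} {s : Side n} (h : S.InI t s x) (hx : x < xi t (S.O s)) :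
    S.InJ t (nx (nx s)) x := by
  rw [InJ, P_nx_nx, Q_nx_nx]; exact ⟨h.1, hx⟩

lemma entry_left {t x : ℝ} {r : Side n} (h : S.InJ t r x) (hx : x < xi t (S.O r)) :
    S.InI t (nx r) x := by
  rw [InI, P_nx, Q_nx]; exact ⟨h.1, hx⟩

lemma entry_right {t x : ℝ} {r : Side n} (h : S.InJ t r x) (hx : xi t (S.O r) < x) :
    S.InI t (nx (nx r)) x := by
  rw [InI, P_nx_nx, Q_nx_nx]; exact ⟨hx, h.2⟩

lemma not_inI_of_inJ {t x y : ℝ} {r : Side n} (h : S.InJ t r x) : ¬ S.InI t r y := by
  rintro ⟨h1, h2⟩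
  have := h.1.trans h.2
  linarith

/-- The word `w` is realised at `x`: its letters are the sides through which the leaf with the
coordinate `x` leaves the triangles. -/
def Run (t : ℝ) : List (Side n) → ℝ → Prop
  | [], _ => True
  | r :: w, x => S.InJ t r x ∧ (∀ r' ∈ w.head?, (S.gl r).1 = r'.1) ∧ Run t w (S.mv t r x)

/-- The scale of a word. -/
def A : List (Side n) → ℝ
  | [] => 1
  | r :: w => S.a r * A w

/-- The translation part of a word: it maps `z` to `A w * z + B w`. -/
noncomputable def B : List (Side n) → ℂ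
  | [] => 0
  | r :: w => S.A w * S.b r + B w

/-- The action of a word on the leaf coordinate. -/
noncomputable def g (t : ℝ) (w : List (Side n)) (x : ℝ) : ℝ := S.A w * x + xi t (S.B w)

/-- The corner `c` at the end of the word `w`, developed to the beginning. -/
noncomputable def dev (w : List (Side n)) (c : Side n) : ℂ := (S.P c - S.B w) / (S.A w : ℂ)

/-- The left end of the interval on which a (nonempty) word is realised. -/
noncomputable def lo (t : ℝ) : List (Side n) → ℝ
  | [] => 0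
  | [r] => xi t (S.Q r)
  | r :: r' :: w => max (xi t (S.Q r)) ((lo t (r' :: w) - xi t (S.b r)) / S.a r)

/-- The right end of the interval on which a (nonempty) word is realised. -/
noncomputable def hi (t : ℝ) : List (Side n) → ℝ
  | [] => 0
  | [r] => xi t (S.P r)
  | r :: r' :: w => min (xi t (S.P r)) ((hi t (r' :: w) - xi t (S.b r)) / S.a r)

/-- The direction is good: two developed corners on the same leaf have the same height. -/
def Gd (t : ℝ) : Prop :=
  ∀ (w w' : List (Side n)) (c c' : Side n), xi t (S.dev w c) = xi t (S.dev w' c') →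
    (S.dev w c).im = (S.dev w' c').im

/-- The position of a leaf on a side. -/
noncomputable def lam (t : ℝ) (s : Side n) (x : ℝ) : ℝ :=
  (xi t (S.P s) - x) / (xi t (S.P s) - xi t (S.Q s))

/-- The point of the leaf with coordinate `x` on the line of the side `s`. -/
noncomputable def pt (t : ℝ) (s : Side n) (x : ℝ) : ℂ :=
  S.P s + (S.lam t s x : ℂ) * (S.Q s - S.P s)

/-- One step of the leaf: `p.2` is the coordinate of a leaf leaving through the side `p.1`. -/
def Tr (t : ℝ) (p q : Side n × ℝ) : Prop :=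
  S.InJ t p.1 p.2 ∧ S.InJ t q.1 q.2 ∧ (S.gl p.1).1 = q.1.1 ∧ q.2 = S.mv t p.1 p.2

/-! ### Words -/

lemma A_pos (w : List (Side n)) : 0 < S.A w := by
  induction w with
  | nil => simp [A]
  | cons r w ih => exact mul_pos (S.a_pos r) ih

lemma A_append (w w' : List (Side n)) : S.A (w ++ w') = S.A w * S.A w' := by
  induction w with
  | nil => simp [A]
  | cons r w ih => simp [A, ih, mul_assoc]

lemma B_append (w w' : List (Side n)) : S.B (w ++ w') = S.A w' * S.B w + S.B w' := by
  induction w with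
  | nil => simp [B]
  | cons r w ih => simp [B, ih, A_append]; ring

lemma g_nil (t x : ℝ) : S.g t [] x = x := by simp [g, A, B, xi_zero]

lemma g_cons (t : ℝ) (r : Side n) (w : List (Side n)) (x : ℝ) :
    S.g t (r :: w) x = S.g t w (S.mv t r x) := by
  simp only [g, A, B, mv, xi_add, xi_mul]; ring

lemma g_single (t : ℝ) (r : Side n) (x : ℝ) : S.g t [r] x = S.mv t r x := by
  rw [g_cons, g_nil]

lemma g_append (t : ℝ) (w w' : List (Side n)) (x : ℝ) :
    S.g t (w ++ w') x = S.g t w' (S.g t w x) := by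
  induction w generalizing x with
  | nil => simp [g_nil]
  | cons r w ih => rw [List.cons_append, g_cons, ih, g_cons]

lemma g_lt_iff (t : ℝ) (w : List (Side n)) {x y : ℝ} : S.g t w x < S.g t w y ↔ x < y := by
  simp only [g, add_lt_add_iff_right]
  exact mul_lt_mul_iff_right₀ (S.A_pos w)

lemma g_le_iff (t : ℝ) (w : List (Side n)) {x y : ℝ} : S.g t w x ≤ S.g t w y ↔ x ≤ y := by
  simp only [g, add_le_add_iff_right]
  exact mul_le_mul_iff_right₀ (S.A_pos w)

lemma run_nil (t x : ℝ) : S.Run t [] x := trivial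

lemma run_single (t : ℝ) (r : Side n) (x : ℝ) : S.Run t [r] x ↔ S.InJ t r x := by
  simp [Run]

lemma run_cons_cons (t : ℝ) (r r' : Side n) (w : List (Side n)) (x : ℝ) :
    S.Run t (r :: r' :: w) x ↔
      S.InJ t r x ∧ (S.gl r).1 = r'.1 ∧ S.Run t (r' :: w) (S.mv t r x) := by
  simp [Run]

/-- The junction of two words. -/
def Junc (w w' : List (Side n)) : Prop :=
  ∀ r ∈ w.getLast?, ∀ r' ∈ w'.head?, (S.gl r).1 = r'.1

lemma run_append (t : ℝ) (w w' : List (Side n)) (x : ℝ) :
    S.Run t (w ++ w') x ↔ S.Run t w x ∧ S.Junc w w' ∧ S.Run t w' (S.g t w x) := by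
  induction w generalizing x with
  | nil => simp [Run, Junc, g_nil]
  | cons r w ih =>
    cases w with
    | nil =>
      simp only [List.cons_append, List.nil_append, Run, Junc, List.getLast?_singleton,
        Option.mem_def, Option.some.injEq, forall_eq', g_single, List.head?_nil]
      constructor
      · rintro ⟨h1, h2, h3⟩
        exact ⟨⟨h1, by simp, trivial⟩, h2, h3⟩
      · rintro ⟨⟨h1, -, -⟩, h2, h3⟩
        exact ⟨h1, h2, h3⟩
    | cons r' w =>
      rw [List.cons_append, List.cons_append, run_cons_cons, run_cons_cons, ← List.cons_append, ih,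
        ← S.g_cons t r (r' :: w) x]
      have : S.Junc (r :: r' :: w) w' ↔ S.Junc (r' :: w) w' := by
        simp [Junc, List.getLast?_cons_cons]
      rw [this]
      tauto

lemma run_snoc (t : ℝ) (w : List (Side n)) (l r : Side n) (x : ℝ) :
    S.Run t (w ++ [l] ++ [r]) x ↔
      S.Run t (w ++ [l]) x ∧ (S.gl l).1 = r.1 ∧ S.InJ t r (S.g t (w ++ [l]) x) := by
  rw [run_append, run_single]
  simp [Junc]

lemma run_take {t x : ℝ} {w : List (Side n)} (h : S.Run t w x) (k : ℕ) :
    S.Run t (w.take k) x := by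
  rw [← List.take_append_drop k w, run_append] at h
  exact h.1

lemma run_drop {t x : ℝ} {w : List (Side n)} (h : S.Run t w x) (k : ℕ) :
    S.Run t (w.drop k) (S.g t (w.take k) x) := by
  rw [← List.take_append_drop k w, run_append] at h
  exact h.2.2

/-- The points at which a word is realised form an interval. -/
lemma run_convex {t x y z : ℝ} {w : List (Side n)} (hx : S.Run t w x) (hz : S.Run t w z)
    (h1 : x ≤ y) (h2 : y ≤ z) : S.Run t w y := by
  induction w generalizing x y z with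
  | nil => trivial
  | cons r w ih =>
    obtain ⟨a1, a2, a3⟩ := hx
    obtain ⟨b1, b2, b3⟩ := hz
    exact ⟨⟨a1.1.trans_le h1, h2.trans_lt b1.2⟩, a2,
      ih a3 b3 ((S.mv_le_iff t r).2 h1) ((S.mv_le_iff t r).2 h2)⟩

end Surf

end Pool.Agent.H44.DU
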