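import Pool.Agent.H44.DU.Targets

/-!
# Chains of states: basic lemmas
-/

set_option autoImplicit false

namespace Pool.Agent.H44.DU

namespace Surf

variable {n : ℕ} (S : Surf n)

lemma gl_inj {r s : Side n} (h : S.gl r = S.gl s) : r = s := by
  rw [← S.gl_gl r, h, S.gl_gl]

/-- The words of a chain of states. -/
lemma chain_run {t : ℝ} {y : ℕ → Side n × ℝ} (hy : ∀ k, S.Tr t (y k) (y (k + 1))) (k m : ℕ) :
    S.Run t ((List.range m).map fun j => (y (k + j)).1) (y k).2 ∧
    S.g t ((List.range m).map fun j => (y (k + j)).1) (y k).2 = (y (k + m)).2 ∧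
    S.A ((List.range m).map fun j => (y (k + j)).1) = ∏ j ∈ Finset.range m, S.a (y (k + j)).1 := by
  induction m generalizing k with
  | zero => simp [Run, g_nil, A]
  | succ m ih =>
    have h1 : (List.range (m + 1)).map (fun j => (y (k + j)).1) =
        (y k).1 :: (List.range m).map (fun j => (y (k + 1 + j)).1) := by
      rw [List.range_succ_eq_map, List.map_cons, List.map_map]
      simp only [add_zero, List.cons.injEq, true_and]
      apply List.map_congr_left
      intro j _
      simp only [Function.comp, Nat.succ_eq_add_one]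
      rw [show k + (j + 1) = k + 1 + j by ring]
    obtain ⟨i1, i2, i3⟩ := ih (k + 1)
    have hk := hy k
    rw [h1]
    refine ⟨⟨hk.1, ?_, ?_⟩, ?_, ?_⟩
    · intro r' hr'
      cases m with
      | zero => simp at hr'
      | succ m =>
        rw [List.range_succ_eq_map] at hr'
        simp only [List.map_cons, List.head?_cons, Option.mem_def, Option.some.injEq,
          add_zero] at hr'
        rw [← hr']
        exact hk.2.2.1
    · rw [← hk.2.2.2]; exact i1
    · rw [g_cons, ← hk.2.2.2, i2, show k + 1 + m = k + (m + 1) by ring]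
    · rw [A, i3, Finset.prod_range_succ']
      simp only [add_zero]
      rw [mul_comm]
      congr 1
      apply Finset.prod_congr rfl
      intro j _
      rw [show k + 1 + j = k + (j + 1) by ring]

/-- A transition is determined by its source. -/
lemma tr_unique {t : ℝ} {p q q' : Side n × ℝ} (h : S.Tr t p q) (h' : S.Tr t p q') : q = q' := by
  have h2 : q.2 = q'.2 := h.2.2.2.trans h'.2.2.2.symm
  refine Prod.ext ?_ h2
  have h3 := h'.2.1
  rw [← h2] at h3
  exact S.exit_unique (h.2.2.1.symm.trans h'.2.2.1) h.2.1 h3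

/-- Two transitions with the same letter. -/
lemma tr_diff {t : ℝ} {p q p' q' : Side n × ℝ} (h : S.Tr t p q) (h' : S.Tr t p' q')
    (hp : p.1 = p'.1) : q.2 - q'.2 = S.a p.1 * (p.2 - p'.2) := by
  rw [h.2.2.2, h'.2.2.2, ← hp]
  simp only [mv]; ring

/-- Two chains with the same letters. -/
lemma chain_diff {t : ℝ} {y y' : ℕ → Side n × ℝ} (hy : ∀ k, S.Tr t (y k) (y (k + 1)))
    (hy' : ∀ k, S.Tr t (y' k) (y' (k + 1))) (h : ∀ k, (y k).1 = (y' k).1) (k m : ℕ) :
    (y (k + m)).2 - (y' (k + m)).2 =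
      (∏ j ∈ Finset.range m, S.a (y (k + j)).1) * ((y k).2 - (y' k).2) := by
  induction m with
  | zero => simp
  | succ m ih =>
    rw [← add_assoc, S.tr_diff (hy (k + m)) (hy' (k + m)) (h _), ih, Finset.prod_range_succ]
    ring

/-- A cycle gives a periodic chain. -/
lemma cyc_chain {t : ℝ} {m : ℕ} {y : ℕ → Side n × ℝ} (h : S.TCyc t m y) :
    (∀ k, S.Tr t (y (k % m)) (y ((k + 1) % m))) ∧ ∀ k, y ((k + m) % m) = y (k % m) := by
  obtain ⟨h1, h2, h3⟩ := h
  refine ⟨fun k => ?_, fun k => by rw [Nat.add_mod_right]⟩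
  have h4 := h2 (k % m) (Nat.mod_lt _ h1)
  rcases Nat.lt_or_ge (k % m + 1) m with h5 | h5
  · have : (k + 1) % m = k % m + 1 := by
      rw [Nat.add_mod]
      rcases Nat.lt_or_ge 1 m with h6 | h6
      · rw [Nat.mod_eq_of_lt h6, Nat.mod_eq_of_lt h5]
      · omega
    rw [this]; exact h4
  · have h6 : k % m + 1 = m := by
      have := Nat.mod_lt k h1
      omega
    have : (k + 1) % m = 0 := by
      rw [← Nat.mod_add_mod, h6, Nat.mod_self]
    rw [this, ← h3]
    rw [h6] at h4
    exact h4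

/-- A periodic chain consists of periodic states. -/
lemma chain_tper {t : ℝ} {p : ℕ} {y : ℕ → Side n × ℝ} (hy : ∀ k, S.Tr t (y k) (y (k + 1)))
    (hp : 0 < p) (h : ∀ k, y (k + p) = y k) (k : ℕ) : y k ∈ S.TPer t := by
  refine ⟨p, fun j => y (k + j), ⟨hp, fun j _ => ?_, ?_⟩, rfl⟩
  · simpa only [add_assoc] using hy (k + j)
  · simpa using h k

lemma io_iff (t : ℝ) (r : Side n) (x : ℝ) : S.rev.InJ t (S.gl r) (-S.mv t r x) ↔ S.InJ t r x := by
  rw [← S.inI_gl_iff]
  have h1 : S.rev.Q (S.gl r) = -S.Q (S.gl r) := rfl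
  have h2 : S.rev.P (S.gl r) = -S.P (S.gl r) := rfl
  rw [InJ, InI, h1, h2, xi_neg, xi_neg, neg_lt_neg_iff, neg_lt_neg_iff]
  tauto

end Surf

end Pool.Agent.H44.DU
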