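import Mathlib

/-!
# Dilation surfaces glued from triangles

The objects of the theorem: triangulated dilation surfaces, their directional foliations, the
Morse-Smale property and the class of surfaces with a monotone horizontal structure.
-/

set_option autoImplicit false

namespace Pool.Agent.H44.DU

/-- A side of one of `n` triangles: the triangle and the index of the side. -/
abbrev Side (n : ℕ) := Fin n × Fin 3

/-- A dilation surface glued from `n` triangles of the complex plane. The triangle `i` has the
vertices `v i 0`, `v i 1`, `v i 2`, in counterclockwise order; its side `(i, k)` runs from `v i k`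
to `v i (k + 1)`. Every side `s` is glued to another side `gl s` by `z ↦ a s * z + b s` with a
real number `a s > 0`, the endpoints being exchanged. -/
structure Surf (n : ℕ) where
  v : Fin n → Fin 3 → ℂ
  gl : Side n → Side n
  a : Side n → ℝ
  b : Side n → ℂ
  orient : ∀ i, 0 < (v i 1 - v i 0).re * (v i 2 - v i 0).im -
    (v i 1 - v i 0).im * (v i 2 - v i 0).re
  gl_gl : ∀ s, gl (gl s) = s
  a_pos : ∀ s, 0 < a s
  glue_fst : ∀ s, (a s : ℂ) * v s.1 s.2 + b s = v (gl s).1 ((gl s).2 + 1)
  glue_snd : ∀ s, (a s : ℂ) * v s.1 (s.2 + 1) + b s = v (gl s).1 (gl s).2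

namespace Surf

variable {n : ℕ} (S : Surf n)

/-- The first endpoint of a side. -/
def P (s : Side n) : ℂ := S.v s.1 s.2

/-- The second endpoint of a side. -/
def Q (s : Side n) : ℂ := S.v s.1 (s.2 + 1)

/-- The surface is connected. -/
def Connected : Prop :=
  ∀ i j : Fin n, Relation.ReflTransGen (fun i j => ∃ k, (S.gl (i, k)).1 = j) i j

/-- A step of the leaf of direction `d`: `p.2` is a point of the open side `p.1`, the leaf through
it enters the triangle of this side, and it leaves the triangle at the point `p.2 + σ * d` of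
another open side `r`; `q` is the same point of the surface, seen in the triangle glued to `r`, and
`c` is the scale `a r` of the gluing. -/
def Step (d : ℂ) (c : ℝ) (p q : Side n × ℂ) : Prop :=
  p.2 ∈ openSegment ℝ (S.P p.1) (S.Q p.1) ∧
  ∃ (r : Side n) (σ : ℝ), r.1 = p.1.1 ∧ r ≠ p.1 ∧ 0 < σ ∧
    p.2 + σ * d ∈ openSegment ℝ (S.P r) (S.Q r) ∧
    q = (S.gl r, S.a r * (p.2 + σ * d) + S.b r) ∧ c = S.a r

/-- `x 0, x 1, ..., x m = x 0` is a closed leaf, `c k` being the scale of its step number `k`. -/
def Cyc (d : ℂ) (m : ℕ) (x : ℕ → Side n × ℂ) (c : ℕ → ℝ) : Prop :=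
  0 < m ∧ (∀ k < m, S.Step d (c k) (x k) (x (k + 1))) ∧ x m = x 0

/-- The points in which the closed leaves of direction `d` cross the sides. -/
def Per (d : ℂ) : Set (Side n × ℂ) := {p | ∃ m x c, S.Cyc d m x c ∧ x 0 = p}

/-- The sequence `x` accumulates at a point of a closed leaf. -/
def AccPer (d : ℂ) (x : ℕ → Side n × ℂ) : Prop :=
  ∃ q ∈ S.Per d, ∀ ε > (0 : ℝ), ∀ N : ℕ, ∃ k ≥ N, (x k).1 = q.1 ∧ ‖(x k).2 - q.2‖ < ε

/-- The foliation of direction `d` is Morse-Smale: there are finitely many closed leaves, at least
one, all hyperbolic, and every leaf accumulates on one of them in each time direction in which it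
is defined for all time. -/
def MorseSmale (d : ℂ) : Prop :=
  (S.Per d).Finite ∧ (S.Per d).Nonempty ∧
  (∀ m x c, S.Cyc d m x c → ∏ k ∈ Finset.range m, c k ≠ 1) ∧
  (∀ x : ℕ → Side n × ℂ, (∀ k, ∃ c, S.Step d c (x k) (x (k + 1))) → S.AccPer d x) ∧
  (∀ x : ℕ → Side n × ℂ, (∀ k, ∃ c, S.Step d c (x (k + 1)) (x k)) → S.AccPer d x)

end Surf

open Classical in
/-- The height: `1` on the triangles of `T`, `Im z` on the other triangles of `U`, and `-Im z` on
the remaining triangles. -/
noncomputable def hgt {n : ℕ} (U T : Fin n → Prop) (i : Fin n) (z : ℂ) : ℝ :=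
  if T i then 1 else if U i then z.im else -z.im

/-- The surface has a monotone horizontal structure, given by the sets of triangles `U` (upper
triangles) and `T` (translation triangles): the heights of the vertices are not negative, the
non-horizontal gluings respect `U` and the heights, and in a horizontal gluing, `s` being the side
of the lower triangle, the upper triangles absorb and the ratio of the scale to the height does not
increase upwards between two triangles of `U` and does not decrease upwards between two triangles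
outside `U`. -/
structure Surf.MonoWith {n : ℕ} (S : Surf n) (U T : Fin n → Prop) : Prop where
  nonneg : ∀ i k, 0 ≤ hgt U T i (S.v i k)
  slant_iff : ∀ s, (S.P s).im ≠ (S.Q s).im → (U s.1 ↔ U (S.gl s).1)
  slant_hgt : ∀ s, (S.P s).im ≠ (S.Q s).im →
    hgt U T (S.gl s).1 (S.Q (S.gl s)) = S.a s * hgt U T s.1 (S.P s)
  flat_imp : ∀ s, (S.P s).im = (S.Q s).im → (S.Q s).re < (S.P s).re → U s.1 → U (S.gl s).1
  flat_upper : ∀ s, (S.P s).im = (S.Q s).im → (S.Q s).re < (S.P s).re → U s.1 →
    S.a s * hgt U T s.1 (S.P s) ≤ hgt U T (S.gl s).1 (S.Q (S.gl s))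
  flat_lower : ∀ s, (S.P s).im = (S.Q s).im → (S.Q s).re < (S.P s).re → ¬ U (S.gl s).1 →
    hgt U T (S.gl s).1 (S.Q (S.gl s)) ≤ S.a s * hgt U T s.1 (S.P s)

/-- The surface has a monotone horizontal structure. -/
def Surf.Monotone {n : ℕ} (S : Surf n) : Prop := ∃ U T : Fin n → Prop, S.MonoWith U T

end Pool.Agent.H44.DU
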