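import Pool.Agent.H44.DU.Defs

/-!
# Height functions on an open set of directions
-/

set_option autoImplicit false

namespace Pool.Agent.H44.DU

/-- The affine height function of the triangle `i`: the value at `z` is
`α i + Re (β i) * Re z + Im (β i) * Im z`. -/
def hh {n : ℕ} (α : Fin n → ℝ) (β : Fin n → ℂ) (i : Fin n) (z : ℂ) : ℝ :=
  α i + (β i).re * z.re + (β i).im * z.im

namespace Surf

variable {n : ℕ} (S : Surf n)

/-- The leaves of direction `t + i` leave the triangle of `s` through the side `s`. -/
def Out (t : ℝ) (s : Side n) : Prop :=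
  (S.Q s).re - t * (S.Q s).im < (S.P s).re - t * (S.P s).im

/-- Height functions for the directions `t + i`, `t ∈ J`. Every triangle has a level `lev i`; the
leaves never pass to a smaller level. On every triangle there is an affine height function, not
negative at the vertices; where it is constant it is `1`. In the levels with `up` it does not
decrease along the leaves, and if a leaf passes to a triangle of the same level through `s` then
the height does not decrease more than by the factor `a s` of the gluing; in the other levels it is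
the other way round. -/
structure Heights (J : Set ℝ) (up : ℤ → Prop) (lev : Fin n → ℤ) (α : Fin n → ℝ)
    (β : Fin n → ℂ) : Prop where
  nonneg : ∀ i k, 0 ≤ hh α β i (S.v i k)
  const : ∀ i, β i = 0 → α i = 1
  dir_up : ∀ t ∈ J, ∀ i, up (lev i) → 0 ≤ (β i).re * t + (β i).im
  dir_down : ∀ t ∈ J, ∀ i, ¬ up (lev i) → (β i).re * t + (β i).im ≤ 0
  level : ∀ t ∈ J, ∀ s, S.Out t s → lev s.1 ≤ lev (S.gl s).1
  glue_up : ∀ t ∈ J, ∀ s, S.Out t s → lev s.1 = lev (S.gl s).1 → up (lev s.1) →
    S.a s * hh α β s.1 (S.P s) ≤ hh α β (S.gl s).1 (S.Q (S.gl s)) ∧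
    S.a s * hh α β s.1 (S.Q s) ≤ hh α β (S.gl s).1 (S.P (S.gl s))
  glue_down : ∀ t ∈ J, ∀ s, S.Out t s → lev s.1 = lev (S.gl s).1 → ¬ up (lev s.1) →
    hh α β (S.gl s).1 (S.Q (S.gl s)) ≤ S.a s * hh α β s.1 (S.P s) ∧
    hh α β (S.gl s).1 (S.P (S.gl s)) ≤ S.a s * hh α β s.1 (S.Q s)

end Surf

end Pool.Agent.H44.DU
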