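import Pool.Agent.H44.DU.Basic2

/-!
# Assembly
-/

set_option autoImplicit false

namespace Pool.Agent.H44.DU

open MeasureTheory

/-- The theorem, from the statements of the modules. -/
theorem main (h1 : T_UA) (h2 : T_RM) (h3 : T_MS) (h4 : T_GE) (h5 : T_SC) (h6 : T_AE) (h7 : T_CO)
    (h8 : T_HR) {n : ℕ} (S : Surf n) (hc : S.Connected) (hm : S.Monotone)
    (ha : ∃ s, S.a s ≠ 1) :
    ∀ᵐ θ : ℝ, S.MorseSmale (Complex.exp (θ * Complex.I)) := by
  obtain ⟨U, T, hUT⟩ := hm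
  have hn : 0 < n := by
    obtain ⟨s, -⟩ := ha
    exact s.1.pos
  obtain ⟨r1, r2⟩ := h2 n S U T hUT hc
  have a1 := h1 n S U T hc hUT ha
  have a2 := h1 n S.rev (fun i => ¬ U i) T r2 r1 ha
  have a3 : ∀ᵐ t : ℝ, S.Gd t := by
    rw [ae_iff]
    exact (h7 n S).measure_zero volume
  have a4 : ∀ᵐ t : ℝ, S.MorseSmale ((t : ℂ) + Complex.I) := by
    filter_upwards [a1, a2, a3] with t b1 b2 b3
    refine h4 n S t b3 (h3 n S U t hn ?_ b1 b2)
    intro r x hr hU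
    exact ((h8 n S U T hUT).1 t x r hr hU).1
  have a5 : volume {t : ℝ | ¬ S.MorseSmale ((t : ℂ) + Complex.I)} = 0 := by
    rwa [ae_iff] at a4
  filter_upwards [h6 _ a5] with θ ⟨t, ht, l, hl, he⟩
  have ht := not_not.1 ht
  rw [he]
  rcases lt_or_gt_of_ne hl with h | h
  · have b1 := (h5 n S _ ht).1 (-l) (by linarith)
    have b2 := (h5 n S _ b1).2
    have : -(((-l : ℝ) : ℂ) * ((t : ℂ) + Complex.I)) = (l : ℂ) * ((t : ℂ) + Complex.I) := by
      push_cast; ring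
    rwa [this] at b2
  · exact (h5 n S _ ht).1 l h

end Pool.Agent.H44.DU
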