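import Pool.Agent.H44.DU.Final

/-!
# Turning the surface
-/

set_option autoImplicit false

namespace Pool.Agent.H44.DU

open MeasureTheory

/-- The surface multiplied by a nonzero complex number (turned and scaled). -/
def Surf.turn {n : ℕ} (S : Surf n) (w : ℂ) (hw : w ≠ 0) : Surf n where
  v i k := w * S.v i k
  gl := S.gl
  a := S.a
  b s := w * S.b s
  orient i := by
    have h := S.orient i
    have h1 : 0 < Complex.normSq w := Complex.normSq_pos.2 hw
    have h2 := mul_pos h1 h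
    rw [Complex.normSq_apply] at h2
    simp only [← mul_sub, Complex.mul_re, Complex.mul_im]
    nlinarith [h2]
  gl_gl := S.gl_gl
  a_pos := S.a_pos
  glue_fst s := by rw [← S.glue_fst s]; ring
  glue_snd s := by rw [← S.glue_snd s]; ring

namespace Surf

variable {n : ℕ} (S : Surf n) (w : ℂ) (hw : w ≠ 0)

/-- Multiplying a point. -/
def mulPt (w : ℂ) (p : Side n × ℂ) : Side n × ℂ := (p.1, w * p.2)

lemma mulPt_mulPt (w w' : ℂ) (p : Side n × ℂ) : mulPt w (mulPt w' p) = mulPt (w * w') p := by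
  simp [mulPt, mul_assoc]

lemma mulPt_one (p : Side n × ℂ) : mulPt 1 p = p := by simp [mulPt]

lemma mem_openSegment_mul {w x y z : ℂ} (h : z ∈ openSegment ℝ x y) :
    w * z ∈ openSegment ℝ (w * x) (w * y) := by
  obtain ⟨a, b, ha, hb, hab, h⟩ := h
  refine ⟨a, b, ha, hb, hab, ?_⟩
  rw [← h]
  simp only [Complex.real_smul]
  ring

lemma step_turn {d : ℂ} {c : ℝ} {p q : Side n × ℂ} (h : S.Step d c p q) :
    (S.turn w hw).Step (w * d) c (mulPt w p) (mulPt w q) := by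
  obtain ⟨h1, r, σ, h2, h3, h4, h5, h6, h7⟩ := h
  refine ⟨mem_openSegment_mul h1, r, σ, h2, h3, h4, ?_, ?_, h7⟩
  · have : (mulPt w p).2 + σ * (w * d) = w * (p.2 + σ * d) := by simp only [mulPt]; ring
    rw [this]
    exact mem_openSegment_mul h5
  · rw [h6]
    simp only [mulPt, turn]
    congr 1
    ring

lemma step_turn' {d : ℂ} {c : ℝ} {p q : Side n × ℂ} (h : (S.turn w hw).Step (w * d) c p q) :
    S.Step d c (mulPt w⁻¹ p) (mulPt w⁻¹ q) := by
  obtain ⟨h1, r, σ, h2, h3, h4, h5, h6, h7⟩ := h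
  have hP : ∀ s, w⁻¹ * (S.turn w hw).P s = S.P s := fun s => by
    change w⁻¹ * (w * S.P s) = S.P s
    rw [← mul_assoc, inv_mul_cancel₀ hw, one_mul]
  have hQ : ∀ s, w⁻¹ * (S.turn w hw).Q s = S.Q s := fun s => by
    change w⁻¹ * (w * S.Q s) = S.Q s
    rw [← mul_assoc, inv_mul_cancel₀ hw, one_mul]
  have h8 := mem_openSegment_mul (w := w⁻¹) h1
  rw [hP, hQ] at h8
  have h9 := mem_openSegment_mul (w := w⁻¹) h5
  rw [hP, hQ] at h9
  have e : w⁻¹ * (p.2 + σ * (w * d)) = w⁻¹ * p.2 + σ * d := by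
    field_simp
  rw [e] at h9
  refine ⟨h8, r, σ, h2, h3, h4, h9, ?_, h7⟩
  rw [h6]
  simp only [mulPt, turn]
  congr 1
  field_simp

lemma per_turn (d : ℂ) {p : Side n × ℂ} (h : p ∈ S.Per d) :
    mulPt w p ∈ (S.turn w hw).Per (w * d) := by
  obtain ⟨m, x, c, ⟨h1, h2, h3⟩, h4⟩ := h
  exact ⟨m, fun k => mulPt w (x k), c,
    ⟨h1, fun k hk => S.step_turn w hw (h2 k hk), by simp only [h3]⟩, by simp only [h4]⟩

lemma per_turn' (d : ℂ) {p : Side n × ℂ} (h : p ∈ (S.turn w hw).Per (w * d)) :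
    mulPt w⁻¹ p ∈ S.Per d := by
  obtain ⟨m, x, c, ⟨h1, h2, h3⟩, h4⟩ := h
  exact ⟨m, fun k => mulPt w⁻¹ (x k), c,
    ⟨h1, fun k hk => S.step_turn' w hw (h2 k hk), by simp only [h3]⟩, by simp only [h4]⟩

lemma acc_turn (d : ℂ) {x : ℕ → Side n × ℂ}
    (h : (S.turn w hw).AccPer (w * d) (fun k => mulPt w (x k))) : S.AccPer d x := by
  obtain ⟨q, hq, h⟩ := h
  refine ⟨mulPt w⁻¹ q, S.per_turn' w hw d hq, fun ε hε N => ?_⟩
  have hw1 : 0 < ‖w‖ := norm_pos_iff.2 hw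
  obtain ⟨k, hk, h1, h2⟩ := h (‖w‖ * ε) (by positivity) N
  refine ⟨k, hk, h1, ?_⟩
  have e : (x k).2 - (mulPt w⁻¹ q).2 = w⁻¹ * ((mulPt w (x k)).2 - q.2) := by
    simp only [mulPt]
    field_simp
  rw [e, norm_mul, norm_inv]
  rw [inv_mul_lt_iff₀ hw1]
  exact h2

/-- The Morse-Smale property after turning. -/
lemma ms_turn {d : ℂ} (h : (S.turn w hw).MorseSmale (w * d)) : S.MorseSmale d := by
  obtain ⟨h1, h2, h3, h4, h5⟩ := h
  refine ⟨?_, ?_, ?_, ?_, ?_⟩
  · refine Set.Finite.of_finite_image (f := mulPt w) ?_ ?_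
    · refine h1.subset ?_
      rintro _ ⟨p, hp, rfl⟩
      exact S.per_turn w hw d hp
    · intro p _ q _ h
      have := congrArg (mulPt w⁻¹) h
      rwa [mulPt_mulPt, mulPt_mulPt, inv_mul_cancel₀ hw, mulPt_one, mulPt_one] at this
  · obtain ⟨p, hp⟩ := h2
    exact ⟨_, S.per_turn' w hw d hp⟩
  · intro m x c ⟨c1, c2, c3⟩
    exact h3 m (fun k => mulPt w (x k)) c
      ⟨c1, fun k hk => S.step_turn w hw (c2 k hk), by simp only [c3]⟩
  · intro x hx
    refine S.acc_turn w hw d (h4 _ fun k => ?_)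
    obtain ⟨c, hc⟩ := hx k
    exact ⟨c, S.step_turn w hw hc⟩
  · intro x hx
    refine S.acc_turn w hw d (h5 _ fun k => ?_)
    obtain ⟨c, hc⟩ := hx k
    exact ⟨c, S.step_turn w hw hc⟩

end Surf

/-- The theorem for surfaces whose monotone structure has an arbitrary direction. -/
theorem main_turn (h5 : T_SC)
    (h : ∀ {n : ℕ} (S : Surf n), S.Connected → S.Monotone → (∃ s, S.a s ≠ 1) →
      ∀ᵐ θ : ℝ, S.MorseSmale (Complex.exp (θ * Complex.I)))
    {n : ℕ} (S : Surf n) (hc : S.Connected) (w : ℂ) (hw : w ≠ 0)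
    (hm : (S.turn w hw).Monotone) (ha : ∃ s, S.a s ≠ 1) :
    ∀ᵐ θ : ℝ, S.MorseSmale (Complex.exp (θ * Complex.I)) := by
  have h1 := h (S.turn w hw) hc hm ha
  have h2 : ∀ᵐ θ : ℝ, (S.turn w hw).MorseSmale
      (Complex.exp (((θ + Complex.arg w : ℝ) : ℂ) * Complex.I)) :=
    (quasiMeasurePreserving_add_right volume (Complex.arg w)).ae h1
  filter_upwards [h2] with θ hθ
  refine S.ms_turn w hw ?_
  have e : w * Complex.exp (θ * Complex.I) =
      (‖w‖ : ℂ) * Complex.exp (((θ + Complex.arg w : ℝ) : ℂ) * Complex.I) := by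
    have h3 : (‖w‖ : ℂ) * Complex.exp (Complex.arg w * Complex.I) = w :=
      Complex.norm_mul_exp_arg_mul_I w
    push_cast
    rw [add_mul, Complex.exp_add]
    calc w * Complex.exp (θ * Complex.I)
        = ((‖w‖ : ℂ) * Complex.exp (Complex.arg w * Complex.I)) *
            Complex.exp (θ * Complex.I) := by rw [h3]
      _ = _ := by ring
  rw [e]
  exact (h5 n _ _ hθ).1 _ (norm_pos_iff.2 hw)

end Pool.Agent.H44.DU
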