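import Pool.Agent.H44.DU.Targets2
import Pool.Agent.H44.DU.Turn

/-!
# Assembly of the general theorem
-/

set_option autoImplicit false

namespace Pool.Agent.H44.DU

open MeasureTheory

/-- The surface has height functions for the directions `t + i`, `t ∈ J`. -/
def Surf.HasHeights {n : ℕ} (S : Surf n) (J : Set ℝ) : Prop :=
  ∃ (up : ℤ → Prop) (lev : Fin n → ℤ) (α : Fin n → ℝ) (β : Fin n → ℂ),
    S.Heights J up lev α β

/-- The general theorem for the slopes. -/
theorem main2 (h1 : T_UAL) (h2 : T_RML) (h3 : T_MSL) (h4 : T_GE) (h7 : T_CO)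
    {n : ℕ} (S : Surf n) (J : Set ℝ) (hJ : IsOpen J) (hc : S.Connected) (hm : S.HasHeights J)
    (ha : ∃ s, S.a s ≠ 1) :
    ∀ᵐ t : ℝ, t ∈ J → S.MorseSmale ((t : ℂ) + Complex.I) := by
  obtain ⟨up, lev, α, β, hH⟩ := hm
  have hn : 0 < n := by
    obtain ⟨s, -⟩ := ha
    exact s.1.pos
  obtain ⟨r1, r2⟩ := h2 n S J up lev α β hH hc
  have a1 : ∀ᵐ t : ℝ, ∀ l : ℤ, up l → t ∈ J → S.UGL (fun i => lev i = l) t := by
    rw [ae_all_iff]
    intro l
    by_cases hl : up l
    · filter_upwards [h1 n S J up lev α β hJ hc hH ha l hl] with t ht _ using ht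
    · exact Filter.Eventually.of_forall fun t h => absurd h hl
  have a2 : ∀ᵐ t : ℝ, ∀ l : ℤ, ¬ up l → t ∈ J → S.rev.UGL (fun i => lev i = l) t := by
    rw [ae_all_iff]
    intro l
    by_cases hl : up l
    · exact Filter.Eventually.of_forall fun t h => absurd hl h
    · have b1 := h1 n S.rev J _ _ α _ hJ r2 r1 ha (-l) (by simpa using hl)
      filter_upwards [b1] with t ht _ htJ
      have b2 := ht htJ
      have e : (fun i => -lev i = -l) = (fun i => lev i = l) := by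
        funext i
        simp
      rwa [e] at b2
  have a3 : ∀ᵐ t : ℝ, S.Gd t := by
    rw [ae_iff]
    exact (h7 n S).measure_zero volume
  filter_upwards [a1, a2, a3] with t b1 b2 b3 htJ
  refine h4 n S t b3 (h3 n S up lev t hn b3 ?_ (fun l hl => b1 l hl htJ)
    (fun l hl => b2 l hl htJ))
  intro p q hpq
  have c1 : S.Out t p.1 := by
    have := hpq.1
    exact this.1.trans this.2
  have c2 := hH.level t htJ p.1 c1
  rwa [hpq.2.2.1] at c2

/-- The slope is determined by the direction. -/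
lemma slope_unique {t t' l l' : ℝ} (hl : l ≠ 0) (h : (l : ℂ) * ((t : ℂ) + Complex.I) =
    (l' : ℂ) * ((t' : ℂ) + Complex.I)) : t = t' := by
  have h1 := congrArg Complex.im h
  have h2 := congrArg Complex.re h
  simp at h1 h2
  rw [← h1] at h2
  exact mul_left_cancel₀ hl h2

/-- The general theorem for the angles. -/
theorem main2_angle (h1 : T_UAL) (h2 : T_RML) (h3 : T_MSL) (h4 : T_GE) (h5 : T_SC) (h6 : T_AE)
    (h7 : T_CO) {n : ℕ} (S : Surf n) (J : Set ℝ) (hJ : IsOpen J) (hc : S.Connected)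
    (hm : S.HasHeights J) (ha : ∃ s, S.a s ≠ 1) :
    ∀ᵐ θ : ℝ, (∃ t ∈ J, ∃ l : ℝ, l ≠ 0 ∧
      Complex.exp (θ * Complex.I) = (l : ℂ) * ((t : ℂ) + Complex.I)) →
      S.MorseSmale (Complex.exp (θ * Complex.I)) := by
  have a4 := main2 h1 h2 h3 h4 h7 S J hJ hc hm ha
  have a5 : volume {t : ℝ | ¬ (t ∈ J → S.MorseSmale ((t : ℂ) + Complex.I))} = 0 := by
    rwa [ae_iff] at a4
  filter_upwards [h6 _ a5] with θ ⟨t, ht, l, hl, he⟩ ⟨t', ht', l', hl', he'⟩
  have ht := not_not.1 ht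
  have htt : t = t' := slope_unique hl (he.symm.trans he')
  subst htt
  have ht := ht ht'
  rw [he]
  rcases lt_or_gt_of_ne hl with h | h
  · have b1 := (h5 n S _ ht).1 (-l) (by linarith)
    have b2 := (h5 n S _ b1).2
    have : -(((-l : ℝ) : ℂ) * ((t : ℂ) + Complex.I)) = (l : ℂ) * ((t : ℂ) + Complex.I) := by
      push_cast; ring
    rwa [this] at b2
  · exact (h5 n S _ ht).1 l h

/-- The general theorem for the angles, with an arbitrary reference direction. -/
theorem main2_turn (h1 : T_UAL) (h2 : T_RML) (h3 : T_MSL) (h4 : T_GE) (h5 : T_SC) (h6 : T_AE)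
    (h7 : T_CO) {n : ℕ} (S : Surf n) (w : ℂ) (hw : w ≠ 0) (J : Set ℝ) (hJ : IsOpen J)
    (hc : S.Connected) (hm : (S.turn w hw).HasHeights J) (ha : ∃ s, S.a s ≠ 1) :
    ∀ᵐ θ : ℝ, (∃ t ∈ J, ∃ l : ℝ, l ≠ 0 ∧
      w * Complex.exp (θ * Complex.I) = (l : ℂ) * ((t : ℂ) + Complex.I)) →
      S.MorseSmale (Complex.exp (θ * Complex.I)) := by
  have h8 := main2_angle h1 h2 h3 h4 h5 h6 h7 (S.turn w hw) J hJ hc hm ha
  have h9 := (quasiMeasurePreserving_add_right volume (Complex.arg w)).ae h8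
  filter_upwards [h9] with θ hθ ⟨t, ht, l, hl, he⟩
  have hw1 : ‖w‖ ≠ 0 := norm_ne_zero_iff.2 hw
  have e : w * Complex.exp (θ * Complex.I) =
      (‖w‖ : ℂ) * Complex.exp (((θ + Complex.arg w : ℝ) : ℂ) * Complex.I) := by
    have h3 : (‖w‖ : ℂ) * Complex.exp (Complex.arg w * Complex.I) = w :=
      Complex.norm_mul_exp_arg_mul_I w
    push_cast
    rw [add_mul, Complex.exp_add]
    calc w * Complex.exp (θ * Complex.I)
        = ((‖w‖ : ℂ) * Complex.exp (Complex.arg w * Complex.I)) *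
            Complex.exp (θ * Complex.I) := by rw [h3]
      _ = _ := by ring
  have hθ' := hθ ⟨t, ht, l / ‖w‖, div_ne_zero hl hw1, ?_⟩
  · refine S.ms_turn w hw ?_
    rw [e]
    exact (h5 n _ _ hθ').1 _ (norm_pos_iff.2 hw)
  · rw [e] at he
    have hw2 : (‖w‖ : ℂ) ≠ 0 := by exact_mod_cast hw1
    push_cast
    rw [div_mul_eq_mul_div, eq_div_iff hw2, ← he]
    push_cast
    ring

end Pool.Agent.H44.DU
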