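import Pool.Agent.H44.DU.Final2

/-!
# Surfaces made of storeys
-/

set_option autoImplicit false

namespace Pool.Agent.H44.DU

open MeasureTheory

/-- The surface consists of storeys: the sides which are not horizontal are glued by translations
inside a storey, the leaves going upwards through a horizontal side (the triangle of `s` is below
the side when `Re Q < Re P`) never pass to a lower storey, and if they stay in the storey then the
scale of the gluing is at most `1` in the storeys with `up` and at least `1` in the others. -/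
structure Surf.Storeys {n : ℕ} (S : Surf n) (up : ℤ → Prop) (lev : Fin n → ℤ) : Prop where
  slant : ∀ s, (S.P s).im ≠ (S.Q s).im → S.a s = 1 ∧ lev s.1 = lev (S.gl s).1
  flat : ∀ s, (S.P s).im = (S.Q s).im → (S.Q s).re < (S.P s).re → lev s.1 ≤ lev (S.gl s).1 ∧
    (lev s.1 = lev (S.gl s).1 → (up (lev s.1) → S.a s ≤ 1) ∧ (¬ up (lev s.1) → 1 ≤ S.a s))

/-- Storeys give constant height functions. -/
theorem Surf.Storeys.hasHeights {n : ℕ} {S : Surf n} {up : ℤ → Prop} {lev : Fin n → ℤ}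
    (h : S.Storeys up lev) : S.HasHeights Set.univ := by
  have hh1 : ∀ i z, hh (fun _ : Fin n => (1 : ℝ)) (fun _ => 0) i z = 1 := by
    intro i z; simp [hh]
  refine ⟨up, lev, fun _ => 1, fun _ => 0, ?_, ?_, ?_, ?_, ?_, ?_, ?_⟩
  · intro i k; rw [hh1]; exact zero_le_one
  · intro i _; rfl
  · intro t _ i _; simp
  · intro t _ i _; simp
  · intro t _ s hs
    by_cases hf : (S.P s).im = (S.Q s).im
    · refine (h.flat s hf ?_).1
      rw [Surf.Out, hf] at hs
      linarith
    · exact (h.slant s hf).2.le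
  · intro t _ s hs hl hu
    rw [hh1, hh1, hh1, hh1, mul_one]
    have h1 : S.a s ≤ 1 := by
      by_cases hf : (S.P s).im = (S.Q s).im
      · refine ((h.flat s hf ?_).2 hl).1 hu
        rw [Surf.Out, hf] at hs
        linarith
      · exact (h.slant s hf).1.le
    exact ⟨h1, h1⟩
  · intro t _ s hs hl hu
    rw [hh1, hh1, hh1, hh1, mul_one]
    have h1 : 1 ≤ S.a s := by
      by_cases hf : (S.P s).im = (S.Q s).im
      · refine ((h.flat s hf ?_).2 hl).2 hu
        rw [Surf.Out, hf] at hs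
        linarith
      · exact (h.slant s hf).1.ge
    exact ⟨h1, h1⟩

/-- Turning by `1` does not change anything. -/
theorem main3 (h1 : T_UAL) (h2 : T_RML) (h3 : T_MSL) (h4 : T_GE) (h5 : T_SC) (h6 : T_AE)
    (h7 : T_CO) {n : ℕ} (S : Surf n) (hc : S.Connected) (ha : ∃ s, S.a s ≠ 1) :
    (∀ (w : ℂ) (hw : w ≠ 0) (J : Set ℝ), IsOpen J → (S.turn w hw).HasHeights J →
      ∀ᵐ θ : ℝ, (∃ t ∈ J, ∃ l : ℝ, l ≠ 0 ∧
        w * Complex.exp (θ * Complex.I) = (l : ℂ) * ((t : ℂ) + Complex.I)) →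
        S.MorseSmale (Complex.exp (θ * Complex.I))) ∧
    (∀ (w : ℂ) (hw : w ≠ 0), (S.turn w hw).HasHeights Set.univ →
      ∀ᵐ θ : ℝ, S.MorseSmale (Complex.exp (θ * Complex.I))) ∧
    (∀ (up : ℤ → Prop) (lev : Fin n → ℤ), S.Storeys up lev →
      ∀ᵐ θ : ℝ, S.MorseSmale (Complex.exp (θ * Complex.I))) := by
  have k1 : ∀ (w : ℂ) (hw : w ≠ 0) (J : Set ℝ), IsOpen J → (S.turn w hw).HasHeights J →
      ∀ᵐ θ : ℝ, (∃ t ∈ J, ∃ l : ℝ, l ≠ 0 ∧
        w * Complex.exp (θ * Complex.I) = (l : ℂ) * ((t : ℂ) + Complex.I)) →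
        S.MorseSmale (Complex.exp (θ * Complex.I)) := fun w hw J hJ hH =>
    main2_turn h1 h2 h3 h4 h5 h6 h7 S w hw J hJ hc hH ha
  have k2 : ∀ (w : ℂ) (hw : w ≠ 0), (S.turn w hw).HasHeights Set.univ →
      ∀ᵐ θ : ℝ, S.MorseSmale (Complex.exp (θ * Complex.I)) := by
    intro w hw hH
    have b1 := k1 w hw Set.univ isOpen_univ hH
    have b2 := h6 ∅ measure_empty
    have b3 := (quasiMeasurePreserving_add_right volume (Complex.arg w)).ae b2
    filter_upwards [b1, b3] with θ c1 ⟨t, _, l, hl, he⟩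
    refine c1 ⟨t, trivial, ‖w‖ * l, mul_ne_zero (norm_ne_zero_iff.2 hw) hl, ?_⟩
    have e : w * Complex.exp (θ * Complex.I) =
        (‖w‖ : ℂ) * Complex.exp (((θ + Complex.arg w : ℝ) : ℂ) * Complex.I) := by
      have h3 : (‖w‖ : ℂ) * Complex.exp (Complex.arg w * Complex.I) = w :=
        Complex.norm_mul_exp_arg_mul_I w
      push_cast
      rw [add_mul, Complex.exp_add]
      calc w * Complex.exp (θ * Complex.I)
          = ((‖w‖ : ℂ) * Complex.exp (Complex.arg w * Complex.I)) *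
              Complex.exp (θ * Complex.I) := by rw [h3]
        _ = _ := by ring
    rw [e, he]
    push_cast
    ring
  refine ⟨k1, k2, fun up lev hS => ?_⟩
  have b1 := main2_angle h1 h2 h3 h4 h5 h6 h7 S Set.univ isOpen_univ hc hS.hasHeights ha
  filter_upwards [b1, h6 ∅ measure_empty] with θ c1 ⟨t, _, l, hl, he⟩
  exact c1 ⟨t, trivial, l, hl, he⟩

end Pool.Agent.H44.DU
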