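import Pool.Agent.H44.DU.Basic

/-!
# Morse-Smale foliations of dilation surfaces: the statements of the modules
-/

set_option autoImplicit false

namespace Pool.Agent.H44.DU

open MeasureTheory

/-! ## Definitions used in the statements -/

namespace Surf

variable {n : ℕ} (S : Surf n)

/-- Consecutive letters are in the same triangle. -/
def Chn : List (Side n) → Prop
  | [] => True
  | r :: w => (∀ r' ∈ w.head?, (S.gl r).1 = r'.1) ∧ Chn w

/-- The height gained between the entry after the letter `r` and the exit through `r'`. -/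
noncomputable def sg (t : ℝ) (r r' : Side n) (y : ℝ) : ℝ :=
  (S.pt t r' y).im - (S.pt t (S.gl r) y).im

/-- The developed height at which the leaf crosses the side `r` after the word `w`. -/
noncomputable def ht (t : ℝ) (w : List (Side n)) (r : Side n) (x : ℝ) : ℝ :=
  ((S.pt t r (S.g t w x)).im - (S.B w).im) / S.A w

/-- The slope coordinate of a side. -/
noncomputable def sl (t : ℝ) (r : Side n) : ℝ :=
  (S.P r - S.Q r).im / (xi t (S.P r) - xi t (S.Q r))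

/-- The surface with the opposite leaves. -/
def rev : Surf n where
  v i k := -S.v i k
  gl := S.gl
  a := S.a
  b s := -S.b s
  orient i := by
    have h := S.orient i
    simp only [Complex.sub_re, Complex.sub_im, Complex.neg_re, Complex.neg_im] at h ⊢
    nlinarith [h]
  gl_gl := S.gl_gl
  a_pos := S.a_pos
  glue_fst s := by rw [← S.glue_fst s]; ring
  glue_snd s := by rw [← S.glue_snd s]; ring

/-- Words of letters of `I` followed by a letter outside `I`. -/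
def EWord (I : Side n → Prop) (w : List (Side n)) : Prop :=
  ∃ u r, w = u ++ [r] ∧ (∀ s ∈ u, I s) ∧ ¬ I r

/-- The leaf leaving through `r` at `x` reaches a side outside `I` through sides of `I`. -/
def Ex (t : ℝ) (I : Side n → Prop) (r : Side n) (x : ℝ) : Prop :=
  ∃ w, EWord I (r :: w) ∧ S.Run t (r :: w) x

/-- A boundary point of the set of the leaves which reach a side outside `I`. -/
def Bdy (t : ℝ) (I : Side n → Prop) (r : Side n) (x : ℝ) (w : List (Side n)) : Prop :=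
  EWord I (r :: w) ∧ S.InJ t r x ∧ (∃ y, S.Run t (r :: w) y) ∧ ¬ S.Run t (r :: w) x ∧
  S.lo t (r :: w) ≤ x ∧ x ≤ S.hi t (r :: w) ∧
  ∀ ε > (0 : ℝ), ∃ c d : ℝ, c < d ∧ x - ε < c ∧ d < x + ε ∧ ∀ y, c < y → y < d → ¬ S.Ex t I r y

/-- The words of letters of `I` realised at `t` have at most `N` letters. -/
def BddI (t : ℝ) (I : Side n → Prop) (N : ℕ) : Prop :=
  ∀ w x, (∀ r ∈ w, I r) → S.Run t w x → w.length ≤ N

/-- The internal sides of the translation part. -/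
def Int (U T : Fin n → Prop) (s : Side n) : Prop :=
  U s.1 ∧ T s.1 ∧ U (S.gl s).1 ∧ T (S.gl s).1 ∧ S.a s = 1

/-- The height at the entry after the letter `r`, `y` being the coordinate after the gluing. -/
noncomputable def hin (U T : Fin n → Prop) (t : ℝ) (r : Side n) (y : ℝ) : ℝ :=
  hgt U T (S.gl r).1 (S.pt t (S.gl r) y)

/-- The height at the exit through `r`. -/
noncomputable def hout (U T : Fin n → Prop) (t : ℝ) (r : Side n) (x : ℝ) : ℝ :=
  hgt U T r.1 (S.pt t r x)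

/-- The scales of the words of `U` decrease exponentially. -/
def Contr (U : Fin n → Prop) (t C ρ : ℝ) : Prop :=
  ∀ w x, (∀ r ∈ w, U r.1) → S.Run t w x → S.A w ≤ C * ρ ^ w.length

/-- The developed heights grow. -/
def QB (U : Fin n → Prop) (t c : ℝ) (N : ℕ) : Prop :=
  ∀ w l x, (∀ r ∈ w ++ [l], U r.1) → N ≤ (w ++ [l]).length → S.Run t (w ++ [l]) x →
    c ≤ (S.pt t (S.gl l) (S.g t (w ++ [l]) x)).im - (S.B (w ++ [l])).im

/-- Every word of at least `3 n + 1` letters contains a step with a gain of height `≥ c`. -/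
def Gain (t c : ℝ) : Prop :=
  ∀ w x, S.Run t w x → 3 * n + 1 ≤ w.length → ∃ u r r' w', w = u ++ r :: r' :: w' ∧
    c ≤ S.sg t r r' (S.g t (u ++ [r]) x)

/-- No word of length `m` in `U` hits a vertex, even in the closed sense. -/
def NotBad (U : Fin n → Prop) (t : ℝ) (m : ℕ) : Prop :=
  ∀ w l x, (w ++ [l]).length = m → (∀ r ∈ w ++ [l], U r.1) → (∃ y, S.Run t (w ++ [l]) y) →
    S.lo t (w ++ [l]) ≤ x → x ≤ S.hi t (w ++ [l]) →
    S.g t (w ++ [l]) x ≠ xi t (S.O (S.gl l))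

/-- The words of length `m` in `U` realised at `t`. -/
def RW (U : Fin n → Prop) (t : ℝ) (m : ℕ) : Set (List (Side n)) :=
  {w | w.length = m ∧ (∀ r ∈ w, U r.1) ∧ ∃ x, S.Run t w x}

/-- `U` absorbs the leaves of direction `t + i`. -/
def Abs (U : Fin n → Prop) (t : ℝ) : Prop :=
  ∀ r x, S.InJ t r x → U r.1 → U (S.gl r).1

/-- A closed orbit of the system of the leaf coordinates. -/
def TCyc (t : ℝ) (m : ℕ) (y : ℕ → Side n × ℝ) : Prop :=
  0 < m ∧ (∀ k < m, S.Tr t (y k) (y (k + 1))) ∧ y m = y 0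

/-- The periodic states. -/
def TPer (t : ℝ) : Set (Side n × ℝ) := {p | ∃ m y, S.TCyc t m y ∧ y 0 = p}

/-- The sequence accumulates at a periodic state. -/
def TAcc (t : ℝ) (y : ℕ → Side n × ℝ) : Prop :=
  ∃ q ∈ S.TPer t, ∀ ε > (0 : ℝ), ∀ N : ℕ, ∃ k ≥ N, (y k).1 = q.1 ∧ |(y k).2 - q.2| < ε

/-- The upper part is good: finitely many periodic states, at least one if there is an upper
triangle, all hyperbolic; the forward orbits accumulate at them, the backward orbits in the upper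
part are periodic. -/
structure UG (U : Fin n → Prop) (t : ℝ) : Prop where
  fin : {p ∈ S.TPer t | U p.1.1}.Finite
  ne : (∃ i, U i) → ∃ p ∈ S.TPer t, U p.1.1
  hyp : ∀ m y, S.TCyc t m y → U (y 0).1.1 → ∏ k ∈ Finset.range m, S.a (y k).1 ≠ 1
  fwd : ∀ y : ℕ → Side n × ℝ, (∀ k, S.Tr t (y k) (y (k + 1))) → U (y 0).1.1 → S.TAcc t y
  bwd : ∀ y : ℕ → Side n × ℝ, (∀ k, S.Tr t (y (k + 1)) (y k)) → (∀ k, U (y k).1.1) →
    y 0 ∈ S.TPer t

/-- The Morse-Smale property in the leaf coordinates. -/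
structure TMS (t : ℝ) : Prop where
  fin : (S.TPer t).Finite
  ne : (S.TPer t).Nonempty
  hyp : ∀ m y, S.TCyc t m y → ∏ k ∈ Finset.range m, S.a (y k).1 ≠ 1
  fwd : ∀ y : ℕ → Side n × ℝ, (∀ k, S.Tr t (y k) (y (k + 1))) → S.TAcc t y
  bwd : ∀ y : ℕ → Side n × ℝ, (∀ k, S.Tr t (y (k + 1)) (y k)) → S.TAcc t y

/-- A crossing point, seen from the other side. -/
noncomputable def io (t : ℝ) (p : Side n × ℝ) : Side n × ℝ := (S.gl p.1, -S.mv t p.1 p.2)

/-- The point of the surface of a state (after the crossing). -/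
noncomputable def th (t : ℝ) (p : Side n × ℝ) : Side n × ℂ :=
  (S.gl p.1, S.pt t (S.gl p.1) (S.mv t p.1 p.2))

end Surf

/-! ## Basics -/

/-- The points on the sides. -/
def T_PT : Prop :=
  ∀ (n : ℕ) (S : Surf n) (t : ℝ) (s : Side n), xi t (S.P s) ≠ xi t (S.Q s) →
    (∀ x, xi t (S.pt t s x) = x) ∧
    (∀ x, S.a s * S.pt t s x + S.b s = S.pt t (S.gl s) (S.mv t s x)) ∧
    S.pt t s (xi t (S.P s)) = S.P s ∧ S.pt t s (xi t (S.Q s)) = S.Q s ∧
    (∀ x, S.InJ t s x ∨ S.InI t s x → S.pt t s x ∈ openSegment ℝ (S.P s) (S.Q s)) ∧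
    (∀ z ∈ openSegment ℝ (S.P s) (S.Q s), S.pt t s (xi t z) = z ∧
      (xi t (S.Q s) < xi t (S.P s) → S.InJ t s (xi t z)) ∧
      (xi t (S.P s) < xi t (S.Q s) → S.InI t s (xi t z)))

/-- Crossing a triangle. -/
def T_CR : Prop :=
  ∀ (n : ℕ) (S : Surf n) (t x : ℝ),
    (∀ s r : Side n, s.1 = r.1 → S.InI t s x → S.InJ t r x →
      (S.pt t s x).im < (S.pt t r x).im ∧
      S.pt t r x = S.pt t s x + ((S.pt t r x).im - (S.pt t s x).im : ℝ) * ((t : ℂ) + Complex.I)) ∧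
    (∀ r : Side n, S.InJ t r x → x = xi t (S.O r) → (S.O r).im < (S.pt t r x).im) ∧
    (∀ s : Side n, xi t (S.P s) < xi t (S.Q s) → xi t (S.P s) ≤ x → x ≤ xi t (S.Q s) →
      x = xi t (S.O s) → (S.pt t s x).im < (S.O s).im)

/-- A word is realised on an interval. -/
def T_LH : Prop :=
  ∀ (n : ℕ) (S : Surf n) (t : ℝ) (w : List (Side n)), w ≠ [] →
    ∀ x, S.Run t w x ↔ S.Chn w ∧ S.lo t w < x ∧ x < S.hi t w

/-- The ends of the interval are developed corners. -/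
def T_DV : Prop :=
  ∀ (n : ℕ) (S : Surf n) (t : ℝ) (w : List (Side n)), w ≠ [] →
    (∃ u r w', w = u ++ r :: w' ∧ S.lo t w = xi t (S.dev u (nx r))) ∧
    (∃ u r w', w = u ++ r :: w' ∧ S.hi t w = xi t (S.dev u r)) ∧
    (∀ u r w', w = u ++ r :: w' →
      xi t (S.dev u (nx r)) ≤ S.lo t w ∧ S.hi t w ≤ xi t (S.dev u r))

/-- Almost all directions are good. -/
def T_CO : Prop := ∀ (n : ℕ) (S : Surf n), {t : ℝ | ¬ S.Gd t}.Countable

/-- The directions in which a word is realised form an open interval. -/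
def T_OP : Prop :=
  ∀ (n : ℕ) (S : Surf n) (w : List (Side n)),
    IsOpen {t : ℝ | ∃ x, S.Run t w x} ∧ {t : ℝ | ∃ x, S.Run t w x}.OrdConnected

/-- Forward determinism. -/
def T_FD : Prop :=
  ∀ (n : ℕ) (S : Surf n) (t x : ℝ) (w w' : List (Side n)), S.Run t w x → S.Run t w' x →
    (∀ r ∈ w.head?, ∀ r' ∈ w'.head?, r.1 = r'.1) → w <+: w' ∨ w' <+: w

/-- Backward determinism. -/
def T_BD : Prop :=
  ∀ (n : ℕ) (S : Surf n) (t x x' : ℝ) (u u' : List (Side n)) (l : Side n),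
    S.Run t (u ++ [l]) x → S.Run t (u' ++ [l]) x' → u.length = u'.length →
    S.g t (u ++ [l]) x = S.g t (u' ++ [l]) x' → u = u' ∧ x = x'

/-- Words can be extended near every point. -/
def T_EX : Prop :=
  ∀ (n : ℕ) (S : Surf n) (t x ε : ℝ) (w : List (Side n)) (l : Side n), 0 < ε →
    S.Run t (w ++ [l]) x → ∃ r x', |x' - x| < ε ∧ S.Run t (w ++ [l] ++ [r]) x'

/-! ## Heights -/

/-- The developed heights increase along a word. -/
def T_HT : Prop :=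
  ∀ (n : ℕ) (S : Surf n) (t x : ℝ) (w : List (Side n)) (r r' : Side n),
    S.Run t (w ++ [r] ++ [r']) x →
    S.ht t (w ++ [r]) r' x - S.ht t w r x =
      S.sg t r r' (S.g t (w ++ [r]) x) / S.A (w ++ [r]) ∧
    0 < S.sg t r r' (S.g t (w ++ [r]) x) ∧
    S.ht t (w ++ [r]) r' x =
      ((S.pt t (S.gl r) (S.g t (w ++ [r]) x)).im - (S.B (w ++ [r])).im) / S.A (w ++ [r]) +
        S.sg t r r' (S.g t (w ++ [r]) x) / S.A (w ++ [r])

/-- The developed corners at the ends of the interval are above the first side. -/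
def T_CV : Prop :=
  ∀ (n : ℕ) (S : Surf n) (t x y : ℝ) (r0 : Side n) (w u w' : List (Side n)) (r c : Side n),
    r0 :: w = u ++ r :: w' → S.Run t (r0 :: w) y → S.lo t (r0 :: w) ≤ x →
    x ≤ S.hi t (r0 :: w) → c = r ∨ c = nx r → x = xi t (S.dev u c) →
    (S.pt t r0 x).im ≤ (S.dev u c).im

/-- The slope coordinates are monotone along a fan. -/
def T_SL : Prop :=
  ∀ (n : ℕ) (S : Surf n) (t x : ℝ) (r r' : Side n), S.Run t [r, r'] x →
    (r' = nx (S.gl r) → S.sl t r' < S.sl t r) ∧ (r' = nx (nx (S.gl r)) → S.sl t r < S.sl t r')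

/-- A change of the pivot gives a gain of height. -/
def T_SG : Prop :=
  ∀ (n : ℕ) (S : Surf n) (K : ℝ), ∃ c > 0, ∀ t, |t| ≤ K → ∀ (r0 r1 r2 : Side n) (x : ℝ),
    S.Run t [r0, r1, r2] x →
    (r1 = nx (S.gl r0) ∧ r2 = nx (nx (S.gl r1))) ∨ (r1 = nx (nx (S.gl r0)) ∧ r2 = nx (S.gl r1)) →
    c ≤ S.sg t r0 r1 (S.mv t r0 x) ∨ c ≤ S.sg t r1 r2 (S.mv t r1 (S.mv t r0 x))

/-- Long words gain height. -/
def T_GA : Prop :=
  ∀ (n : ℕ) (S : Surf n) (K : ℝ), ∃ c > 0, ∀ t, |t| ≤ K → S.Gain t c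

/-- Words from a horizontal side to a horizontal side gain height. -/
def T_GB : Prop :=
  ∀ (n : ℕ) (S : Surf n) (L : ℕ), ∃ c > 0, ∀ (t x : ℝ) (w : List (Side n)) (r r' : Side n),
    w.length ≤ L → S.Run t (r :: w ++ [r']) x → (S.P r).im = (S.Q r).im →
    (S.P r').im = (S.Q r').im → ∃ u l l' w', r :: w ++ [r'] = u ++ l :: l' :: w' ∧
      c ≤ S.sg t l l' (S.g t (u ++ [l]) x)

/-! ## The translation part -/

/-- The lemma on trees of intervals. -/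
def T_TR : Prop :=
  ∀ (E : Type) (_ : Fintype E) (W : Set (List E)) (lo hi : List E → ℝ) (D : ℝ) (o : E → ℝ),
    (∀ e w, e :: w ∈ W → w ≠ [] → w ∈ W) →
    (∀ w ∈ W, w ≠ [] ∧ lo w < hi w ∧ -D ≤ lo w ∧ hi w ≤ D) →
    (∀ w ∈ W, ∀ w' ∈ W, w ≠ w' → w.head? = w'.head? → hi w ≤ lo w' ∨ hi w' ≤ lo w) →
    (∀ e' e w, e' :: e :: w ∈ W → ¬ (lo (e :: w) < o e ∧ o e < hi (e :: w)) →
      hi (e' :: e :: w) - lo (e' :: e :: w) = hi (e :: w) - lo (e :: w)) →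
    ∃ N : ℕ, ∀ w ∈ W, w.length ≤ N

/-- The exit words are bounded. -/
def T_K1 : Prop :=
  ∀ (n : ℕ) (S : Surf n) (t : ℝ) (I : Side n → Prop), (∀ s, I s → S.a s = 1) →
    ∃ N : ℕ, ∀ w x, Surf.EWord I w → S.Run t w x → w.length ≤ N

/-- Reversing a word. -/
def T_RV : Prop :=
  ∀ (n : ℕ) (S : Surf n) (t x : ℝ) (s : Side n) (w : List (Side n)), S.InI t s x →
    S.Run t w x → (∀ r ∈ w.head?, s.1 = r.1) →
    S.rev.Run t ((w.map S.gl).reverse ++ [s]) (-S.g t w x)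

/-- The words of `I` after an entry from outside are bounded. -/
def T_K2 : Prop :=
  ∀ (n : ℕ) (S : Surf n) (t : ℝ) (I : Side n → Prop), (∀ s, I s → S.a s = 1) →
    (∀ s, I (S.gl s) ↔ I s) →
    ∃ N : ℕ, ∀ (s : Side n) w x, ¬ I s → S.InI t s x → (∀ r ∈ w, I r) →
      (∀ r ∈ w.head?, s.1 = r.1) → S.Run t w x → w.length ≤ N

/-- An interval of leaves which do not reach the outside carries arbitrarily long words. -/
def T_NE : Prop :=
  ∀ (n : ℕ) (S : Surf n) (t : ℝ) (I : Side n → Prop) (r : Side n) (c d : ℝ), c < d →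
    (∀ y, c < y → y < d → S.InJ t r y ∧ ¬ S.Ex t I r y) →
    ∀ k : ℕ, ∃ w y, w.length = k ∧ (∀ s ∈ r :: w, I s) ∧ c < y ∧ y < d ∧ S.Run t (r :: w) y

/-- Leaves entering from outside reach the outside. -/
def T_IN : Prop :=
  ∀ (n : ℕ) (S : Surf n) (t : ℝ) (I : Side n → Prop), (∀ s, I s → S.a s = 1) →
    (∀ s, I (S.gl s) ↔ I s) → ∀ (s r : Side n) (c d : ℝ), ¬ I s → s.1 = r.1 → c < d →
    (∀ y, c < y → y < d → S.InI t s y ∧ S.InJ t r y) → ∃ y, c < y ∧ y < d ∧ S.Ex t I r y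

/-- Following a leaf backwards or forwards does not change whether it reaches the outside. -/
def T_EB : Prop :=
  ∀ (n : ℕ) (S : Surf n) (t : ℝ) (I : Side n → Prop) (r r' : Side n) (x : ℝ), I r' →
    S.Tr t (r', x) (r, S.mv t r' x) → (S.Ex t I r' x ↔ S.Ex t I r (S.mv t r' x))

/-- Boundary points can be followed backwards. -/
def T_BS : Prop :=
  ∀ (n : ℕ) (S : Surf n) (t : ℝ) (I : Side n → Prop), S.Gd t → (∀ s, I s → S.a s = 1) →
    (∀ s, I (S.gl s) ↔ I s) → ∀ (r : Side n) (x : ℝ) (w : List (Side n)), S.Bdy t I r x w →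
    ∃ r' x', S.Bdy t I r' x' (r :: w)

/-- There are no boundary points. -/
def T_BN : Prop :=
  ∀ (n : ℕ) (S : Surf n) (t : ℝ) (I : Side n → Prop), S.Gd t → (∀ s, I s → S.a s = 1) →
    (∀ s, I (S.gl s) ↔ I s) → ∀ (r : Side n) (x : ℝ) (w : List (Side n)), ¬ S.Bdy t I r x w

/-- The dichotomy. -/
def T_DI : Prop :=
  ∀ (n : ℕ) (S : Surf n) (t : ℝ) (I : Side n → Prop), S.Gd t → (∀ s, I s → S.a s = 1) →
    (∀ s, I (S.gl s) ↔ I s) → ∀ (r : Side n) (x : ℝ), S.Ex t I r x →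
    ∀ c d : ℝ, c < d → xi t (S.Q r) ≤ c → d ≤ xi t (S.P r) → ∃ y, c < y ∧ y < d ∧ S.Ex t I r y

/-- The words of the translation part are bounded. -/
def T_TL : Prop :=
  ∀ (n : ℕ) (S : Surf n) (t : ℝ) (I : Side n → Prop), S.Gd t → (∀ s, I s → S.a s = 1) →
    (∀ s, I (S.gl s) ↔ I s) →
    (∀ i : Fin n, ∃ f : Side n, ¬ I f ∧
      Relation.ReflTransGen (fun i j => ∃ s, I s ∧ s.1 = i ∧ (S.gl s).1 = j) i f.1) →
    ∃ N : ℕ, S.BddI t I N

/-- The bound holds in a neighbourhood. -/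
def T_NB : Prop :=
  ∀ (n : ℕ) (S : Surf n) (t₀ : ℝ) (I : Side n → Prop) (N : ℕ), S.Gd t₀ → S.BddI t₀ I N →
    ∃ δ > 0, ∀ t, |t - t₀| < δ → S.BddI t I N

/-- The internal sides satisfy the hypotheses of `T_TL`. -/
def T_CP : Prop :=
  ∀ (n : ℕ) (S : Surf n) (U T : Fin n → Prop), S.Connected → S.MonoWith U T →
    (∃ s, S.a s ≠ 1) →
    (∀ s, S.Int U T (S.gl s) ↔ S.Int U T s) ∧
    (∀ i : Fin n, ∃ f : Side n, ¬ S.Int U T f ∧
      Relation.ReflTransGen (fun i j => ∃ s, S.Int U T s ∧ s.1 = i ∧ (S.gl s).1 = j) i f.1)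

/-! ## Contraction -/

/-- The heights along a word of the upper part. -/
def T_HR : Prop :=
  ∀ (n : ℕ) (S : Surf n) (U T : Fin n → Prop), S.MonoWith U T →
    (∀ (t x : ℝ) (r : Side n), S.InJ t r x → U r.1 → U (S.gl r).1 ∧
      0 < S.hout U T t r x ∧ S.a r * S.hout U T t r x ≤ S.hin U T t r (S.mv t r x) ∧
      ((T r.1 ↔ ¬ T (S.gl r).1) → (S.P r).im = (S.Q r).im) ∧
      (T r.1 → T (S.gl r).1 → S.a r ≤ 1)) ∧
    (∀ (t x : ℝ) (r r' : Side n), (S.gl r).1 = r'.1 → U r'.1 → S.InI t (S.gl r) x →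
      S.InJ t r' x → (T r'.1 → S.hin U T t r x = 1 ∧ S.hout U T t r' x = 1) ∧
        (¬ T r'.1 → S.hout U T t r' x = S.hin U T t r x + S.sg t r r' x ∧
          0 < S.sg t r r' x)) ∧
    (∃ D > 0, ∀ (t x : ℝ) (r : Side n), S.InJ t r x ∨ S.InI t r x →
      |hgt U T r.1 (S.pt t r x)| ≤ D)

/-- Long words of the upper part contain a contraction. -/
def T_WE : Prop :=
  ∀ (n : ℕ) (S : Surf n) (U T : Fin n → Prop), S.MonoWith U T → ∀ (K : ℝ) (N : ℕ),
    ∃ c > 0, ∃ L : ℕ, ∀ t, |t| ≤ K → S.BddI t (S.Int U T) N →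
    ∀ w x, S.Run t w x → (∀ r ∈ w, U r.1) → L ≤ w.length →
    ∃ u r r' w', w = u ++ r :: r' :: w' ∧
      (1 + c) * (S.a r' * S.hin U T t r (S.g t (u ++ [r]) x)) ≤
        S.hin U T t r' (S.g t (u ++ [r] ++ [r']) x)

/-- A word reaches a height bounded below. -/
def T_HB : Prop :=
  ∀ (n : ℕ) (S : Surf n) (U T : Fin n → Prop), S.MonoWith U T → ∀ K : ℝ, ∃ c > 0,
    ∀ t, |t| ≤ K → ∀ w x, S.Run t w x → (∀ r ∈ w, U r.1) → 3 * n + 1 ≤ w.length →
    ∃ u r w', w = u ++ r :: w' ∧ u.length ≤ 3 * n ∧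
      c ≤ S.hin U T t r (S.g t (u ++ [r]) x)

/-- The abstract contraction lemma: `h k` and `a k` are the height and the scale of the step
number `k`. -/
def T_CA : Prop :=
  ∀ (c D M : ℝ) (L J : ℕ), 0 < c → 0 < D → 0 < M → ∃ C > 0, ∃ ρ : ℝ, 0 < ρ ∧ ρ < 1 ∧
    ∀ (m : ℕ) (a h : ℕ → ℝ), (∀ k < m, 0 < a k ∧ a k ≤ M ∧ 0 < h k ∧ h k ≤ D) →
      (∀ k, k + 1 < m → a (k + 1) * h k ≤ h (k + 1)) →
      (∀ k, k + L ≤ m → ∃ j, k ≤ j ∧ j + 1 < k + L ∧
        (1 + c) * (a (j + 1) * h j) ≤ h (j + 1)) →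
      (J < m → ∃ j ≤ J, c ≤ h j) →
      ∏ k ∈ Finset.range m, a k ≤ C * ρ ^ m

/-- The scales decrease exponentially. -/
def T_AB : Prop :=
  ∀ (n : ℕ) (S : Surf n) (U T : Fin n → Prop), S.MonoWith U T → ∀ (K : ℝ) (N : ℕ),
    ∃ C > 0, ∃ ρ : ℝ, 0 < ρ ∧ ρ < 1 ∧ ∀ t, |t| ≤ K → S.BddI t (S.Int U T) N → S.Contr U t C ρ

/-- The developed heights grow. -/
def T_QB : Prop :=
  ∀ (n : ℕ) (S : Surf n) (U : Fin n → Prop) (K C ρ : ℝ), 0 < C → 0 < ρ → ρ < 1 →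
    ∃ c > 0, ∃ N : ℕ, ∀ t, |t| ≤ K → S.Contr U t C ρ → S.QB U t c N

/-! ## Counting -/

/-- The number of words realised in one direction grows linearly. -/
def T_X1 : Prop :=
  ∀ (n : ℕ) (S : Surf n) (t : ℝ) (m : ℕ), 0 < m →
    {w : List (Side n) | w.length = m ∧ ∃ x, S.Run t w x}.ncard ≤ 3 * n * m

/-- The number of words realised near a direction. -/
def T_X2 : Prop :=
  ∀ (n : ℕ) (S : Surf n) (t₀ : ℝ) (m : ℕ), 0 < m → ∃ δ > 0,
    {w : List (Side n) | w.length = m ∧ ∃ t x, |t - t₀| < δ ∧ S.Run t w x}.ncard ≤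
      6 * n * m

/-- Submultiplicativity. -/
def T_X3 : Prop :=
  ∀ (n : ℕ) (S : Surf n) (V : Set ℝ) (m k : ℕ),
    {w : List (Side n) | w.length = k * m ∧ ∃ t x, t ∈ V ∧ S.Run t w x}.ncard ≤
      {w : List (Side n) | w.length = m ∧ ∃ t x, t ∈ V ∧ S.Run t w x}.ncard ^ k

/-- The directions in which one word is bad. -/
def T_X4 : Prop :=
  ∀ (n : ℕ) (S : Surf n) (K : ℝ), ∃ D > 0, ∀ (w : List (Side n)) (l : Side n) (α c : ℝ),
    0 < c → S.A (w ++ [l]) ≤ α →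
    volume {t : ℝ | |t| ≤ K ∧ (∃ y, S.Run t (w ++ [l]) y) ∧
      (∀ y, S.Run t (w ++ [l]) y →
        c ≤ (S.pt t (S.gl l) (S.g t (w ++ [l]) y)).im - (S.B (w ++ [l])).im) ∧
      ∃ x, S.lo t (w ++ [l]) ≤ x ∧ x ≤ S.hi t (w ++ [l]) ∧
        S.g t (w ++ [l]) x = xi t (S.O (S.gl l))} ≤ ENNReal.ofReal (D * α / c)

/-- Almost every direction has a level without bad words. -/
def T_X5 : Prop :=
  ∀ (n : ℕ) (S : Surf n) (U : Fin n → Prop) (t₀ δ C ρ c : ℝ) (N : ℕ), 0 < n → 0 < δ → 0 < C →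
    0 < ρ → ρ < 1 → 0 < c →
    (∀ t, |t - t₀| < δ → S.Contr U t C ρ ∧ S.QB U t c N) →
    ∃ δ' > 0, ∀ᵐ t : ℝ, |t - t₀| < δ' → ∃ m, 0 < m ∧ S.NotBad U t m

/-! ## Periodicity -/

/-- Without bad words the next letter is unique. -/
def T_P1 : Prop :=
  ∀ (n : ℕ) (S : Surf n) (U : Fin n → Prop) (t : ℝ) (m : ℕ), S.Abs U t → 0 < m →
    S.NotBad U t m → ∀ w ∈ S.RW U t m,
    ∃ r : Side n, w.tail ++ [r] ∈ S.RW U t m ∧ (∀ x, S.Run t w x → S.Run t (w ++ [r]) x) ∧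
      ∀ r' x, S.Run t (w ++ [r']) x → r' = r

/-- The periodic words: `w` is a cyclic word of the level `m`, with the period `u`. -/
def T_P2 : Prop :=
  ∀ (n : ℕ) (S : Surf n) (t c C ρ : ℝ) (u w : List (Side n)), S.Gd t → 0 < c → S.Gain t c →
    0 < C → 0 < ρ → ρ < 1 → u ≠ [] → w ≠ [] → w.head? = u.head? →
    (∀ k : ℕ, S.A ((List.replicate k u).flatten) ≤ C * ρ ^ k) → (∃ x, S.Run t w x) →
    (∀ k : ℕ, ∀ x, S.Run t w x → S.Run t ((List.replicate k u).flatten ++ w) x) →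
    S.A u < 1 ∧ ∃ x, S.g t u x = x ∧ ∀ k : ℕ, S.Run t ((List.replicate k u).flatten ++ w) x

/-- Without bad words, the first letters determine the orbit. -/
def T_P3 : Prop :=
  ∀ (n : ℕ) (S : Surf n) (U : Fin n → Prop) (t : ℝ) (m : ℕ), S.Abs U t → 0 < m →
    S.NotBad U t m →
    (∀ w ∈ S.RW U t m, ∀ x, S.Run t w x → ∃ y : ℕ → Side n × ℝ,
      (∀ k, S.Tr t (y k) (y (k + 1))) ∧ (y 0).2 = x ∧ (∀ k, U (y k).1.1) ∧
      (List.range m).map (fun j => (y j).1) = w) ∧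
    (∀ y y' : ℕ → Side n × ℝ, (∀ k, S.Tr t (y k) (y (k + 1))) →
      (∀ k, S.Tr t (y' k) (y' (k + 1))) → U (y 0).1.1 → (∀ j < m, (y j).1 = (y' j).1) →
      ∀ j, (y j).1 = (y' j).1)

/-- Without bad words, an orbit with periodic letters converges to a periodic orbit. -/
def T_P4 : Prop :=
  ∀ (n : ℕ) (S : Surf n) (U : Fin n → Prop) (t c C ρ : ℝ) (m : ℕ), S.Abs U t → S.Gd t →
    0 < c → S.Gain t c → 0 < C → 0 < ρ → ρ < 1 → S.Contr U t C ρ → 0 < m → S.NotBad U t m →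
    ∀ (y : ℕ → Side n × ℝ) (p : ℕ), (∀ k, S.Tr t (y k) (y (k + 1))) → U (y 0).1.1 → 0 < p →
    (∀ k, (y (k + p)).1 = (y k).1) →
    ∃ z : ℕ → Side n × ℝ, (∀ k, S.Tr t (z k) (z (k + 1))) ∧ (∀ k, (z k).1 = (y k).1) ∧
      (∀ k, z (k + p) = z k) ∧ ∏ k ∈ Finset.range p, S.a (z k).1 < 1

/-- Without bad words, the letters of an orbit are eventually periodic. -/
def T_P5 : Prop :=
  ∀ (n : ℕ) (S : Surf n) (U : Fin n → Prop) (t : ℝ) (m : ℕ), S.Abs U t → 0 < m →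
    S.NotBad U t m → ∀ y : ℕ → Side n × ℝ, (∀ k, S.Tr t (y k) (y (k + 1))) → U (y 0).1.1 →
    ∃ K p : ℕ, 0 < p ∧ ∀ k ≥ K, (y (k + p)).1 = (y k).1

/-- Without bad words, the backward orbits in the upper part are periodic. -/
def T_P6 : Prop :=
  ∀ (n : ℕ) (S : Surf n) (U : Fin n → Prop) (t c C ρ : ℝ) (m : ℕ), S.Abs U t → S.Gd t →
    0 < c → S.Gain t c → 0 < C → 0 < ρ → ρ < 1 → S.Contr U t C ρ → 0 < m → S.NotBad U t m →
    ∀ y : ℕ → Side n × ℝ, (∀ k, S.Tr t (y (k + 1)) (y k)) → (∀ k, U (y k).1.1) →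
    y 0 ∈ S.TPer t

/-- Without bad words the upper part is good. -/
def T_PU : Prop :=
  ∀ (n : ℕ) (S : Surf n) (U : Fin n → Prop) (t c C ρ : ℝ) (m : ℕ), S.Abs U t → S.Gd t →
    0 < c → S.Gain t c → 0 < C → 0 < ρ → ρ < 1 → S.Contr U t C ρ → 0 < m → S.NotBad U t m →
    S.UG U t

/-! ## Assembly -/

/-- The upper part is good in almost every direction. -/
def T_UA : Prop :=
  ∀ (n : ℕ) (S : Surf n) (U T : Fin n → Prop), S.Connected → S.MonoWith U T →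
    (∃ s, S.a s ≠ 1) → ∀ᵐ t : ℝ, S.UG U t

/-- The reversed surface. -/
def T_RM : Prop :=
  ∀ (n : ℕ) (S : Surf n) (U T : Fin n → Prop), S.MonoWith U T → S.Connected →
    S.rev.MonoWith (fun i => ¬ U i) T ∧ S.rev.Connected

/-- Reversing the states. -/
def T_IO : Prop :=
  ∀ (n : ℕ) (S : Surf n) (t : ℝ), (∀ p : Side n × ℝ, S.rev.io t (S.io t p) = p) ∧
    (∀ p q : Side n × ℝ, S.Tr t p q ↔ S.rev.Tr t (S.io t q) (S.io t p))

/-- The upper and the lower part together. -/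
def T_MS : Prop :=
  ∀ (n : ℕ) (S : Surf n) (U : Fin n → Prop) (t : ℝ), 0 < n → S.Abs U t → S.UG U t →
    S.rev.UG (fun i => ¬ U i) t → S.TMS t

/-- Steps and transitions. -/
def T_ST : Prop :=
  ∀ (n : ℕ) (S : Surf n) (t : ℝ), S.Gd t →
    (∀ p q : Side n × ℝ, S.Tr t p q →
      S.Step ((t : ℂ) + Complex.I) (S.a q.1) (S.th t p) (S.th t q)) ∧
    (∀ (c : ℝ) (p q : Side n × ℂ), S.Step ((t : ℂ) + Complex.I) c p q →
      ∃ r : Side n, S.InJ t r (xi t p.2) ∧ r.1 = p.1.1 ∧ q = S.th t (r, xi t p.2) ∧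
        c = S.a r ∧ S.InI t p.1 (xi t p.2) ∧ xi t q.2 = S.mv t r (xi t p.2))

/-- From the leaf coordinates to the surface. -/
def T_GE : Prop :=
  ∀ (n : ℕ) (S : Surf n) (t : ℝ), S.Gd t → S.TMS t → S.MorseSmale ((t : ℂ) + Complex.I)

/-- The direction only matters up to a real factor. -/
def T_SC : Prop :=
  ∀ (n : ℕ) (S : Surf n) (d : ℂ), S.MorseSmale d →
    (∀ l : ℝ, 0 < l → S.MorseSmale ((l : ℂ) * d)) ∧ S.MorseSmale (-d)

/-- From the slopes to the angles. -/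
def T_AE : Prop :=
  ∀ N : Set ℝ, volume N = 0 →
    ∀ᵐ θ : ℝ, ∃ t : ℝ, t ∉ N ∧ ∃ l : ℝ, l ≠ 0 ∧
      Complex.exp (θ * Complex.I) = (l : ℂ) * ((t : ℂ) + Complex.I)

end Pool.Agent.H44.DU
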