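import Pool.Agent.H44.DU.Basic2
import Pool.Agent.H44.DU.Defs2

/-!
# The general theorem: the statements of the modules
-/

set_option autoImplicit false

namespace Pool.Agent.H44.DU

open MeasureTheory

namespace Surf

variable {n : ℕ} (S : Surf n)

/-- The internal sides: between two triangles of constant height, with the scale `1`. -/
def IntL (β : Fin n → ℂ) (s : Side n) : Prop := β s.1 = 0 ∧ β (S.gl s).1 = 0 ∧ S.a s = 1

/-- The height at the exit through `r`. -/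
noncomputable def ex (α : Fin n → ℝ) (β : Fin n → ℂ) (t : ℝ) (r : Side n) (x : ℝ) : ℝ :=
  hh α β r.1 (S.pt t r x)

/-- The sum of the defects along a word. -/
noncomputable def dfc (α : Fin n → ℝ) (β : Fin n → ℂ) (t : ℝ) : List (Side n) → ℝ → ℝ
  | [], _ => 0
  | [_], _ => 0
  | r :: r' :: w, x => (S.ex α β t r' (S.mv t r x) - S.a r * S.ex α β t r x) +
      dfc α β t (r' :: w) (S.mv t r x)

/-- The sum of the exit heights along a word. -/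
noncomputable def sme (α : Fin n → ℝ) (β : Fin n → ℂ) (t : ℝ) : List (Side n) → ℝ → ℝ
  | [], _ => 0
  | r :: w, x => S.ex α β t r x + sme α β t w (S.mv t r x)

/-- The set `V` of triangles is good: finitely many periodic states with orbits in `V`, all
hyperbolic, the forward orbits in `V` accumulate, the backward orbits in `V` are periodic. -/
structure UGL (V : Fin n → Prop) (t : ℝ) : Prop where
  fin : {p | ∃ m y, S.TCyc t m y ∧ y 0 = p ∧ ∀ k ≤ m, V (y k).1.1}.Finite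
  hyp : ∀ m y, S.TCyc t m y → (∀ k ≤ m, V (y k).1.1) → ∏ k ∈ Finset.range m, S.a (y k).1 ≠ 1
  fwd : ∀ y : ℕ → Side n × ℝ, (∀ k, S.Tr t (y k) (y (k + 1))) → (∀ k, V (y k).1.1) → S.TAcc t y
  bwd : ∀ y : ℕ → Side n × ℝ, (∀ k, S.Tr t (y (k + 1)) (y k)) → (∀ k, V (y k).1.1) →
    y 0 ∈ S.TPer t

end Surf

/-! ## Heights -/

/-- The internal sides satisfy the hypotheses of `T_TL`. -/
def T_CPL : Prop :=
  ∀ (n : ℕ) (S : Surf n) (β : Fin n → ℂ), S.Connected → (∃ s, S.a s ≠ 1) →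
    (∀ s, S.IntL β (S.gl s) ↔ S.IntL β s) ∧
    (∀ i : Fin n, ∃ f : Side n, ¬ S.IntL β f ∧
      Relation.ReflTransGen (fun i j => ∃ s, S.IntL β s ∧ s.1 = i ∧ (S.gl s).1 = j) i f.1)

/-- The heights along the leaves of an upper level. -/
def T_HL1 : Prop :=
  ∀ (n : ℕ) (S : Surf n) (J : Set ℝ) (up : ℤ → Prop) (lev : Fin n → ℤ) (α : Fin n → ℝ)
    (β : Fin n → ℂ), IsOpen J → S.Heights J up lev α β →
    (∀ t ∈ J, ∀ (r : Side n) (x : ℝ), S.InJ t r x → up (lev r.1) → 0 < S.ex α β t r x) ∧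
    (∀ t ∈ J, ∀ (r r' : Side n) (x : ℝ), S.Run t [r, r'] x → lev r.1 = lev r'.1 →
      up (lev r.1) → S.a r * S.ex α β t r x ≤ S.ex α β t r' (S.mv t r x) ∧
        (S.a r * S.ex α β t r x = S.ex α β t r' (S.mv t r x) →
          β r'.1 = 0 ∧ (β r.1 = 0 → S.a r = 1))) ∧
    (∃ D > 0, ∀ (t : ℝ) (r : Side n) (x : ℝ), S.InJ t r x → S.ex α β t r x ≤ D)

/-- The indices at which a boundary leaf meets a corner are close together. -/
def T_KD : Prop :=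
  ∀ (n : ℕ) (S : Surf n) (t c : ℝ), S.Gd t → 0 < c → S.Gain t c →
    ∀ (w : List (Side n)) (x : ℝ), (∃ y, S.Run t w y) → S.lo t w ≤ x → x ≤ S.hi t w →
    ∀ (k₁ k₂ : ℕ) (h₁ : k₁ < w.length) (h₂ : k₂ < w.length),
      ¬ S.InJ t w[k₁] (S.g t (w.take k₁) x) → ¬ S.InJ t w[k₂] (S.g t (w.take k₂) x) →
      k₂ < k₁ + 3 * n

/-- The total defect is positive, even in the closed sense. -/
def T_HL2 : Prop :=
  ∀ (n : ℕ) (S : Surf n) (J : Set ℝ) (up : ℤ → Prop) (lev : Fin n → ℤ) (α : Fin n → ℝ)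
    (β : Fin n → ℂ) (t c : ℝ) (N : ℕ) (l : ℤ), IsOpen J → S.Heights J up lev α β → t ∈ J →
    S.Gd t → 0 < c → S.Gain t c → S.BddI t (S.IntL β) N → up l →
    ∀ (w : List (Side n)) (x : ℝ), (∀ r ∈ w, lev r.1 = l) → 2 * (N + 3) + 3 * n ≤ w.length →
      (∃ y, S.Run t w y) → S.lo t w ≤ x → x ≤ S.hi t w → 0 < S.dfc α β t w x

/-- The sum of the heights is positive, even in the closed sense. -/
def T_HL3 : Prop :=
  ∀ (n : ℕ) (S : Surf n) (J : Set ℝ) (up : ℤ → Prop) (lev : Fin n → ℤ) (α : Fin n → ℝ)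
    (β : Fin n → ℂ) (t c : ℝ) (l : ℤ), IsOpen J → S.Heights J up lev α β → t ∈ J →
    S.Gd t → 0 < c → S.Gain t c → up l →
    ∀ (w : List (Side n)) (x : ℝ), (∀ r ∈ w, lev r.1 = l) → 3 * n + 1 ≤ w.length →
      (∃ y, S.Run t w y) → S.lo t w ≤ x → x ≤ S.hi t w → 0 < S.sme α β t w x

/-- The compactness lemma. -/
def T_CMP : Prop :=
  ∀ (n : ℕ) (S : Surf n) (t₀ δ₀ : ℝ) (w : List (Side n)) (F : ℝ × ℝ → ℝ), S.Gd t₀ → w ≠ [] →
    0 < δ₀ → ContinuousOn F {p | |p.1 - t₀| < δ₀} →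
    ((∃ y, S.Run t₀ w y) → ∀ x, S.lo t₀ w ≤ x → x ≤ S.hi t₀ w → 0 < F (t₀, x)) →
    ∃ δ > 0, ∃ c > 0, ∀ t, |t - t₀| < δ → ∀ x, S.Run t w x → c ≤ F (t, x)

/-- The sums are continuous near a good direction. -/
def T_CN : Prop :=
  ∀ (n : ℕ) (S : Surf n) (α : Fin n → ℝ) (β : Fin n → ℂ) (t₀ : ℝ), S.Gd t₀ → ∃ δ > 0,
    ∀ w : List (Side n),
      ContinuousOn (fun p : ℝ × ℝ => S.dfc α β p.1 w p.2) {p | |p.1 - t₀| < δ} ∧
      ContinuousOn (fun p : ℝ × ℝ => S.sme α β p.1 w p.2) {p | |p.1 - t₀| < δ}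

/-- The scales of the words of an upper level decrease exponentially near a good direction. -/
def T_ABL : Prop :=
  ∀ (n : ℕ) (S : Surf n) (J : Set ℝ) (up : ℤ → Prop) (lev : Fin n → ℤ) (α : Fin n → ℝ)
    (β : Fin n → ℂ) (t₀ : ℝ) (N : ℕ) (l : ℤ), IsOpen J → S.Heights J up lev α β → t₀ ∈ J →
    S.Gd t₀ → S.BddI t₀ (S.IntL β) N → up l →
    ∃ δ > 0, ∃ C > 0, ∃ ρ : ℝ, 0 < ρ ∧ ρ < 1 ∧
      ∀ t, |t - t₀| < δ → S.Contr (fun i => lev i = l) t C ρ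

/-! ## Periodicity in a set of triangles which need not absorb -/

/-- Without bad words the next letter is unique. -/
def T_L1 : Prop :=
  ∀ (n : ℕ) (S : Surf n) (V : Fin n → Prop) (t : ℝ) (m : ℕ), 0 < m → S.NotBad V t m →
    ∀ w ∈ S.RW V t m, ∃ r : Side n, (∀ x, S.Run t w x → S.Run t (w ++ [r]) x) ∧
      ∀ r' x, S.Run t (w ++ [r']) x → r' = r

/-- Without bad words, the first letters determine the orbit. -/
def T_L3 : Prop :=
  ∀ (n : ℕ) (S : Surf n) (V : Fin n → Prop) (t : ℝ) (m : ℕ), 0 < m → S.NotBad V t m →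
    ∀ y : ℕ → Side n × ℝ, (∀ k, S.Tr t (y k) (y (k + 1))) → (∀ k, V (y k).1.1) →
    (∀ x, S.Run t ((List.range m).map fun j => (y j).1) x → ∃ y' : ℕ → Side n × ℝ,
      (∀ k, S.Tr t (y' k) (y' (k + 1))) ∧ (y' 0).2 = x ∧ ∀ j, (y' j).1 = (y j).1) ∧
    (∀ y' : ℕ → Side n × ℝ, (∀ k, S.Tr t (y' k) (y' (k + 1))) →
      (∀ j < m, (y' j).1 = (y j).1) → ∀ j, (y' j).1 = (y j).1)

/-- Without bad words, an orbit with periodic letters converges to a periodic orbit. -/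
def T_L4 : Prop :=
  ∀ (n : ℕ) (S : Surf n) (V : Fin n → Prop) (t c C ρ : ℝ) (m : ℕ), S.Gd t → 0 < c →
    S.Gain t c → 0 < C → 0 < ρ → ρ < 1 → S.Contr V t C ρ → 0 < m → S.NotBad V t m →
    ∀ (y : ℕ → Side n × ℝ) (p : ℕ), (∀ k, S.Tr t (y k) (y (k + 1))) → (∀ k, V (y k).1.1) →
    0 < p → (∀ k, (y (k + p)).1 = (y k).1) →
    ∃ z : ℕ → Side n × ℝ, (∀ k, S.Tr t (z k) (z (k + 1))) ∧ (∀ k, (z k).1 = (y k).1) ∧
      (∀ k, z (k + p) = z k) ∧ ∏ k ∈ Finset.range p, S.a (z k).1 < 1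

/-- Without bad words, the letters of an orbit are eventually periodic. -/
def T_L5 : Prop :=
  ∀ (n : ℕ) (S : Surf n) (V : Fin n → Prop) (t : ℝ) (m : ℕ), 0 < m → S.NotBad V t m →
    ∀ y : ℕ → Side n × ℝ, (∀ k, S.Tr t (y k) (y (k + 1))) → (∀ k, V (y k).1.1) →
    ∃ K p : ℕ, 0 < p ∧ ∀ k ≥ K, (y (k + p)).1 = (y k).1

/-- Without bad words, the backward orbits in `V` are periodic. -/
def T_L6 : Prop :=
  ∀ (n : ℕ) (S : Surf n) (V : Fin n → Prop) (t c C ρ : ℝ) (m : ℕ), S.Gd t → 0 < c →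
    S.Gain t c → 0 < C → 0 < ρ → ρ < 1 → S.Contr V t C ρ → 0 < m → S.NotBad V t m →
    ∀ y : ℕ → Side n × ℝ, (∀ k, S.Tr t (y (k + 1)) (y k)) → (∀ k, V (y k).1.1) →
    y 0 ∈ S.TPer t

/-- Without bad words the set is good. -/
def T_LU : Prop :=
  ∀ (n : ℕ) (S : Surf n) (V : Fin n → Prop) (t c C ρ : ℝ) (m : ℕ), S.Gd t → 0 < c →
    S.Gain t c → 0 < C → 0 < ρ → ρ < 1 → S.Contr V t C ρ → 0 < m → S.NotBad V t m →
    S.UGL V t

/-- There is an infinite leaf. -/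
def T_INF : Prop :=
  ∀ (n : ℕ) (S : Surf n) (t : ℝ), 0 < n → S.Gd t →
    ∃ y : ℕ → Side n × ℝ, ∀ k, S.Tr t (y k) (y (k + 1))

/-! ## Assembly -/

/-- The upper levels are good in almost every direction of `J`. -/
def T_UAL : Prop :=
  ∀ (n : ℕ) (S : Surf n) (J : Set ℝ) (up : ℤ → Prop) (lev : Fin n → ℤ) (α : Fin n → ℝ)
    (β : Fin n → ℂ), IsOpen J → S.Connected → S.Heights J up lev α β → (∃ s, S.a s ≠ 1) →
    ∀ l : ℤ, up l → ∀ᵐ t : ℝ, t ∈ J → S.UGL (fun i => lev i = l) t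

/-- The reversed surface. -/
def T_RML : Prop :=
  ∀ (n : ℕ) (S : Surf n) (J : Set ℝ) (up : ℤ → Prop) (lev : Fin n → ℤ) (α : Fin n → ℝ)
    (β : Fin n → ℂ), S.Heights J up lev α β → S.Connected →
    S.rev.Heights J (fun l => ¬ up (-l)) (fun i => -lev i) α (fun i => -β i) ∧
      S.rev.Connected

/-- All levels together. -/
def T_MSL : Prop :=
  ∀ (n : ℕ) (S : Surf n) (up : ℤ → Prop) (lev : Fin n → ℤ) (t : ℝ), 0 < n → S.Gd t →
    (∀ p q : Side n × ℝ, S.Tr t p q → lev p.1.1 ≤ lev q.1.1) →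
    (∀ l : ℤ, up l → S.UGL (fun i => lev i = l) t) →
    (∀ l : ℤ, ¬ up l → S.rev.UGL (fun i => lev i = l) t) → S.TMS t

end Pool.Agent.H44.DU
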